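import Pool.Agent.Lib.MP_e81270_lc_Sym.Sides
import Pool.Agent.Lib.MP_e81270_lc_LocalExt.Main

/-!
# The lower bound for symmetric extension variables
-/

set_option autoImplicit false

namespace Pool.Agent.Lib.MP_e81270_lc_Sym

open Pool.Agent.Lib.MP_e81270_lc_LocalExt Classical Finset Equiv

variable {n m : ℕ} {c : Ctx n m}

/-! ### The trees of the variables -/

/-- The trees of the variables. -/
noncomputable def vt (c : Ctx n m) : Var n m → MT n
  | .inl e => .node (c.wv e) fun f => .leaf (decide (f = e))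
  | .inr i => queryAll (fun acc => .leaf (decide (val c i acc))) (c.W i).toList ∅

lemma vt_edge (hc : c.Ok) {e : Edge n} {M : Finset (Edge n)} {b : Bool} (hM : IsM M)
    (h : Runs (vt c (.inl e)) M b) : b = true ↔ e ∈ M := by
  obtain ⟨f, hf, hfe, hb⟩ := h
  have hb' : decide (f = e) = b := hb
  subst hb'
  rw [decide_eq_true_iff]
  constructor
  · rintro rfl; exact hf
  · intro he
    exact hM.eq_of_inc hf he hfe (hc.inc_wv e)

lemma vt_edge_true (hc : c.Ok) {e : Edge n} {M : Finset (Edge n)} (he : e ∈ M) :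
    Runs (vt c (.inl e)) M true :=
  ⟨e, he, hc.inc_wv e, by simp [Runs]⟩

lemma vt_cov {i : Fin m} {M : Finset (Edge n)} {b : Bool} (h : Runs (vt c (.inr i)) M b) :
    Cvr (c.W i) M := by
  obtain ⟨acc, h1, h2, h3, h4, h5⟩ := Runs.queryAll h
  intro v hv
  obtain ⟨e, he, hev⟩ := h3 v (by simpa using hv)
  exact ⟨e, (mem_inter.1 he).2, hev⟩

lemma vt_ext (hc : c.Ok) {i : Fin m} {M : Finset (Edge n)} {b : Bool} (hM : IsM M)
    (h : Runs (vt c (.inr i)) M b) : b = true ↔ val c i M := by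
  obtain ⟨acc, h1, h2, h3, h4, h5⟩ := Runs.queryAll h
  have hb : decide (val c i acc) = b := h5
  subst hb
  rw [decide_eq_true_iff]
  have haM : acc ⊆ M := by simpa using h2
  apply val_mono hc.acyc hM haM
  intro v hv
  obtain ⟨e, he, hev⟩ := h3 v (by simpa using hv)
  exact ⟨e, (mem_inter.1 he).1, hev⟩

lemma runs_queryAll {k : Finset (Edge n) → MT n} {M : Finset (Edge n)}
    (hk : ∀ acc, ∃ b, Runs (k acc) M b) {vs : List (Vx n)} (hvs : ∀ v ∈ vs, Cov M v) :
    ∀ acc : Finset (Edge n), ∃ b, Runs (queryAll k vs acc) M b := by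
  induction vs with
  | nil => exact hk
  | cons v vs ih =>
    intro acc
    obtain ⟨e, he, hev⟩ := hvs v (by simp)
    obtain ⟨b, hb⟩ := ih (fun w hw => hvs w (by simp [hw])) (insert e acc)
    exact ⟨b, e, he, hev, hb⟩

lemma vt_runs {x : Var n m} {M : Finset (Edge n)} (h : Cvr (c.Wv x) M) :
    ∃ b, Runs (vt c x) M b := by
  cases x with
  | inl e =>
    obtain ⟨f, hf, hfe⟩ := h (c.wv e) (by simp [Ctx.Wv])
    exact ⟨decide (f = e), f, hf, hfe, rfl⟩
  | inr i =>
    apply runs_queryAll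
    · intro acc
      exact ⟨_, rfl⟩
    · intro v hv
      exact h v (by simpa [Ctx.Wv] using hv)

lemma vt_val (hc : c.Ok) {x : Var n m} {M : Finset (Edge n)} {b b' : Bool} (hM : IsM M)
    (h : Runs (vt c x) M b) : lval c M (x, b') ↔ (b' = b) := by
  cases x with
  | inl e =>
    have := vt_edge hc hM h
    simp only [lval, ← this]
    cases b <;> cases b' <;> simp
  | inr i =>
    have := vt_ext hc hM h
    simp only [lval, ← this]
    cases b <;> cases b' <;> simp

lemma vt_cvr {x : Var n m} {M : Finset (Edge n)} {b : Bool} (h : Runs (vt c x) M b) :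
    Cvr (c.Wv x) M := by
  cases x with
  | inl e =>
    obtain ⟨f, hf, hfe, _⟩ := h
    intro v hv
    simp only [Ctx.Wv, mem_singleton] at hv
    subst hv
    exact ⟨f, hf, hfe⟩
  | inr i => exact vt_cov h

lemma runs_lit (hc : c.Ok) {t : Fm n m → MT n} {l : Var n m × Bool} {M : Finset (Edge n)}
    (hM : IsM M) (hcv : Cvr (c.Wv l.1) M) (hl : lval c M l) :
    Runs (tr (vt c) t (lit l)) M true := by
  obtain ⟨x, b'⟩ := l
  obtain ⟨b, hb⟩ := vt_runs hcv
  have h1 := (vt_val hc hM hb).1 hl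
  subst h1
  cases b' with
  | true => exact hb
  | false => exact runs_neg.2 hb

lemma lit_of_runs (hc : c.Ok) {t : Fm n m → MT n} {l : Var n m × Bool} {M : Finset (Edge n)}
    (hM : IsM M) (h : Runs (tr (vt c) t (lit l)) M true) :
    Cvr (c.Wv l.1) M ∧ lval c M l := by
  obtain ⟨x, b'⟩ := l
  cases b' with
  | true => exact ⟨vt_cvr (b := true) h, (vt_val hc hM (b := true) h).2 rfl⟩
  | false =>
    have h1 : Runs (vt c x) M false := runs_neg.1 h
    exact ⟨vt_cvr h1, (vt_val hc hM h1).2 rfl⟩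

lemma vt_depth {h : ℕ} (h1 : 1 ≤ h) (hW : ∀ i, (c.W i).card ≤ h) (w : Var n m) :
    (vt c w).depth ≤ h := by
  cases w with
  | inl e =>
    have h0 : (univ.sup fun f : Edge n => (MT.leaf (n := n) (decide (f = e))).depth) ≤ 0 :=
      Finset.sup_le fun _ _ => le_rfl
    simp only [vt, MT.depth] at h0 ⊢
    omega
  | inr i =>
    have := depth_queryAll (fun acc => MT.leaf (decide (val c i acc))) 0
      (by intro acc; simp [MT.depth]) (c.W i).toList ∅
    refine this.trans ?_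
    rw [Finset.length_toList]
    simpa using hW i

/-! ### The adversary -/

/-- The data used by the adversary. -/
structure SymSetting (D : Fin m → Fm n m) (c : Ctx n m) (ov : Edge n → Vx n)
    (ρ : Finset (Edge n)) (t : Fm n m → MT n) (w h : ℕ) (X : Finset (Fm n m)) : Prop where
  circ : IsCircuit D c.S
  ok : c.Ok
  ovinc : ∀ e, inc e (ov e)
  mov : c.Movable ov w
  wpos : 1 ≤ w
  wh : 2 * w ≤ h
  wle : ∀ i, (c.W i).card ≤ w
  sub : c.ρ₀ ⊆ ρ
  isM : IsM ρ
  card : ρ.card + 4 * h ≤ n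
  neg : ∀ A, .neg A ∈ X → A ∈ X
  dep : ∀ A ∈ X, (tr (vt c) t A).depth ≤ h
  good : ∀ k f, .or k f ∈ X → Good (tr (vt c) t) ρ (Set.range f) (t (.or k f))

variable {D : Fin m → Fm n m} {ρ : Finset (Edge n)} {t : Fm n m → MT n} {w h : ℕ}
  {X : Finset (Fm n m)} {ov : Edge n → Vx n}

theorem no_forced_sym (st : SymSetting D c ov ρ t w h X) {N : ℕ} {C : Fin N → List (Fm n m)}
    (hC : ∀ i, Step D {Γ | ∃ s < i, C s = Γ} (C i)) (hX : ∀ i, ∀ A ∈ C i, A ∈ X)
    (hline : ∀ i, ∃ U : MT n, U.depth ≤ h ∧ Good (tr (vt c) t) ρ {A | A ∈ C i} U) :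
    ∀ i : Fin N, ∀ M, IsM M → ρ ⊆ M → M.card + h ≤ n →
      ¬ ∀ A ∈ C i, FF (tr (vt c) t) A M := by
  intro i
  induction i using WellFoundedLT.induction with
  | _ i ih =>
  intro M hM hρM hcM hall
  have hcard := st.card
  have hwh := st.wh
  have hwpos := st.wpos
  have hok := st.ok
  have hacyc : Acyc c.S := hok.acyc
  -- shrink the matching
  obtain ⟨U, hU1, hU2⟩ := hline i
  obtain ⟨M', hMM', hM', hc', b, hr⟩ := exists_runs U hM (by omega)
  have hb : b = false := by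
    cases b with
    | false => rfl
    | true =>
      obtain ⟨A, hA, hrA⟩ := (hU2 M' hM' (hρM.trans hMM')).1 hr
      exact absurd hrA (hall A hA M' hM' hMM')
  subst hb
  obtain ⟨σ, hσ, hσc, hrσ⟩ := hr.path
  obtain ⟨M₁, hM₁def⟩ : ∃ M₁, M₁ = ρ ∪ σ := ⟨_, rfl⟩
  have hM₁s : M₁ ⊆ M' := by rw [hM₁def]; exact union_subset (hρM.trans hMM') hσ
  have hM₁ : IsM M₁ := hM'.mono hM₁s
  have hρ₁ : ρ ⊆ M₁ := by rw [hM₁def]; exact subset_union_left
  have hc₁ : M₁.card ≤ ρ.card + h := by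
    rw [hM₁def]
    have := card_union_le ρ σ
    omega
  have hall₁ : ∀ A ∈ C i, FF (tr (vt c) t) A M₁ := by
    intro A hA M'' h1 h2
    refine (hU2 M₁ hM₁ hρ₁).2 (hrσ.mono ?_) M'' h1 h2 A hA
    rw [hM₁def]; exact subset_union_right
  clear hall hrσ hσc hσ hr hc' hM₁s hM' hMM' hU1 hU2 hcM hρM hM hM₁def
  -- running a tree
  have run : ∀ A ∈ X, ∀ M, IsM M → M.card + h ≤ n → ∃ M', M ⊆ M' ∧ IsM M' ∧
      M'.card ≤ M.card + h ∧ ∃ b, Runs (tr (vt c) t A) M' b := by
    intro A hA M hM hc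
    have hd := st.dep A hA
    obtain ⟨M', h1, h2, h3, b, h4⟩ := exists_runs (tr (vt c) t A) hM (by omega)
    exact ⟨M', h1, h2, by omega, b, h4⟩
  have ih' : ∀ Γ, (∃ s < i, C s = Γ) → (∀ A ∈ Γ, A ∈ X) ∧ ∀ M, IsM M → ρ ⊆ M → M.card + h ≤ n →
      ¬ ∀ A ∈ Γ, FF (tr (vt c) t) A M := by
    rintro Γ ⟨s, hs, rfl⟩
    exact ⟨hX s, ih s hs⟩
  have hSi := hX i
  have hstep := hC i
  clear ih hline
  generalize C i = L at hstep hSi hall₁
  cases hstep with
  | pigeon p =>
    obtain ⟨e, he, hM₂⟩ := exists_extend hM₁ (by omega) (.inl p)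
    refine hall₁ (.var (.inl e)) ?_ (insert e M₁) hM₂ (subset_insert _ _)
      (vt_edge_true hok (mem_insert_self _ _))
    rw [List.mem_ofFn]
    refine ⟨e.2, ?_⟩
    have : e = (p, e.2) := Prod.ext he rfl
    rw [← this]
  | hole q =>
    obtain ⟨e, he, hM₂⟩ := exists_extend hM₁ (by omega) (.inr q)
    refine hall₁ (.var (.inl e)) ?_ (insert e M₁) hM₂ (subset_insert _ _)
      (vt_edge_true hok (mem_insert_self _ _))
    rw [List.mem_ofFn]
    refine ⟨e.1, ?_⟩
    have : e = (e.1, q) := Prod.ext rfl he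
    rw [← this]
  | excl e f hne hsh =>
    have hA := hall₁ (.neg (.var (.inl e))) (by simp)
    have hB := hall₁ (.neg (.var (.inl f))) (by simp)
    have hAS : .var (.inl e) ∈ X := st.neg _ (hSi _ (by simp))
    have hBS : .var (.inl f) ∈ X := st.neg _ (hSi _ (by simp))
    obtain ⟨M₂, h12, hM₂, hc₂, b, hr⟩ := run _ hAS M₁ hM₁ (by omega)
    have hb : b = true := by
      cases b with
      | true => rfl
      | false => exact absurd (runs_neg.2 hr) (hA M₂ hM₂ h12)
    obtain ⟨M₃, h23, hM₃, hc₃, b', hr'⟩ := run _ hBS M₂ hM₂ (by omega)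
    have hb' : b' = true := by
      cases b' with
      | true => rfl
      | false => exact absurd (runs_neg.2 hr') (hB M₃ hM₃ (h12.trans h23))
    have he : e ∈ M₂ := (vt_edge hok hM₂ hr).1 hb
    have hf : f ∈ M₃ := (vt_edge hok hM₃ hr').1 hb'
    exact hne (hM₃ e (h23 he) f hf hsh)
  | extLeft j =>
    have hA := hall₁ (.neg (.var (.inr j))) (by simp)
    have hB := hall₁ (D j) (by simp)
    have hAS : .var (.inr j) ∈ X := st.neg _ (hSi _ (by simp))
    have hBS : D j ∈ X := hSi _ (by simp)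
    obtain ⟨k, f, hDf, hf⟩ := (st.circ j).1
    rw [hDf] at hB hBS
    obtain ⟨M₂, h12, hM₂, hc₂, b, hr⟩ := run _ hAS M₁ hM₁ (by omega)
    have hb : b = true := by
      cases b with
      | true => rfl
      | false => exact absurd (runs_neg.2 hr) (hA M₂ hM₂ h12)
    have hρ₂ : ρ ⊆ M₂ := hρ₁.trans h12
    have hz : val c j M₂ := (vt_ext hok hM₂ (show Runs (vt c (.inr j)) M₂ b from hr)).1 hb
    have hcov : Cvr (c.W j) M₂ := vt_cov (show Runs (vt c (.inr j)) M₂ b from hr)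
    obtain ⟨M₃, h23, hM₃, hc₃, b', hr'⟩ := run _ hBS M₂ hM₂ (by omega)
    cases b' with
    | true => exact hB M₃ hM₃ (h12.trans h23) hr'
    | false =>
      have hρ₃ : ρ ⊆ M₃ := hρ₂.trans h23
      have hz3 : val c j M₃ := (val_mono hacyc hM₃ h23 hcov).1 hz
      obtain ⟨R', h3R, hR', hcR', l, hl, hlc, hlv⟩ := exists_true_literal hok hwpos st.wle
        st.ovinc st.mov hM₃ (st.sub.trans hρ₃) (hcov.mono h23) (by omega) hz3
      have hrl : Runs (tr (vt c) t (lit l)) R' true := runs_lit hok hR' hlc hlv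
      refine (st.good k f hBS M₃ hM₃ hρ₃).2 hr' R' hR' h3R (lit l) ?_ hrl
      rw [hf]
      exact ⟨l, hl, rfl⟩
  | extRight j =>
    have hA := hall₁ (.var (.inr j)) (by simp)
    have hB := hall₁ (.neg (D j)) (by simp)
    have hAS : .var (.inr j) ∈ X := hSi _ (by simp)
    have hBS : D j ∈ X := st.neg _ (hSi _ (by simp))
    obtain ⟨k, f, hDf, hf⟩ := (st.circ j).1
    rw [hDf] at hB hBS
    obtain ⟨M₂, h12, hM₂, hc₂, b, hr⟩ := run _ hAS M₁ hM₁ (by omega)
    have hb : ¬ b = true := by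
      intro hb
      subst hb
      exact hA M₂ hM₂ h12 hr
    have hρ₂ : ρ ⊆ M₂ := hρ₁.trans h12
    have hz : ¬ val c j M₂ :=
      (not_congr (vt_ext hok hM₂ (show Runs (vt c (.inr j)) M₂ b from hr))).1 hb
    have hcov : Cvr (c.W j) M₂ := vt_cov (show Runs (vt c (.inr j)) M₂ b from hr)
    obtain ⟨M₃, h23, hM₃, hc₃, b', hr'⟩ := run _ hBS M₂ hM₂ (by omega)
    cases b' with
    | false => exact hB M₃ hM₃ (h12.trans h23) (runs_neg.2 hr')
    | true =>
      obtain ⟨A, hA', hrA⟩ := (st.good k f hBS M₃ hM₃ (hρ₂.trans h23)).1 hr'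
      rw [hf] at hA'
      obtain ⟨l, hl, rfl⟩ := hA'
      obtain ⟨hlc, hlv⟩ := lit_of_runs hok hM₃ hrA
      exact hz ((val_mono hacyc hM₃ h23 hcov).2
        (val_of_literal hok hM₃ (st.sub.trans (hρ₂.trans h23)) hl hlc hlv))
  | middle A =>
    have hA := hall₁ A (by simp)
    have hB := hall₁ (.neg A) (by simp)
    obtain ⟨M₂, h12, hM₂, hc₂, b, hr⟩ := run _ (hSi A (by simp)) M₁ hM₁ (by omega)
    cases b with
    | true => exact hA M₂ hM₂ h12 hr
    | false => exact hB M₂ hM₂ h12 (runs_neg.2 hr)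
  | weak hΓ hsub =>
    exact (ih' _ hΓ).2 M₁ hM₁ hρ₁ (by omega) fun A hA => hall₁ A (hsub hA)
  | @cut A _ h1 h2 =>
    have hAS : A ∈ X := (ih' _ h1).1 A (by simp)
    obtain ⟨M₂, h12, hM₂, hc₂, b, hr⟩ := run _ hAS M₁ hM₁ (by omega)
    cases b with
    | true =>
      refine (ih' _ h2).2 M₂ hM₂ (hρ₁.trans h12) (by omega) fun B hB => ?_
      rcases List.mem_cons.1 hB with rfl | hB
      · exact ff_of_runs (runs_neg.2 hr)
      · exact (hall₁ B hB).mono h12
    | false =>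
      refine (ih' _ h1).2 M₂ hM₂ (hρ₁.trans h12) (by omega) fun B hB => ?_
      rcases List.mem_cons.1 hB with rfl | hB
      · exact ff_of_runs hr
      · exact (hall₁ B hB).mono h12
  | @orIntro k f Γ j h1 =>
    have hAS : .or k f ∈ X := hSi _ (by simp)
    obtain ⟨M₂, h12, hM₂, hc₂, b, hr⟩ := run _ hAS M₁ hM₁ (by omega)
    have hb : b = false := by
      cases b with
      | false => rfl
      | true => exact absurd hr (hall₁ _ (by simp) M₂ hM₂ h12)
    subst hb
    refine (ih' _ h1).2 M₂ hM₂ (hρ₁.trans h12) (by omega) fun B hB => ?_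
    rcases List.mem_cons.1 hB with rfl | hB
    · intro M₃ hM₃ h23
      exact (st.good k f hAS M₂ hM₂ (hρ₁.trans h12)).2 hr M₃ hM₃ h23 _ ⟨j, rfl⟩
    · exact (hall₁ B (by simp [hB])).mono h12
  | @norIntro k f Γ h1 =>
    have hAS : .or k f ∈ X := st.neg _ (hSi _ (by simp))
    obtain ⟨M₂, h12, hM₂, hc₂, b, hr⟩ := run _ hAS M₁ hM₁ (by omega)
    have hb : b = true := by
      cases b with
      | true => rfl
      | false => exact absurd (runs_neg.2 hr) (hall₁ (.neg (.or k f)) (by simp) M₂ hM₂ h12)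
    subst hb
    obtain ⟨_, ⟨j, rfl⟩, hrj⟩ := (st.good k f hAS M₂ hM₂ (hρ₁.trans h12)).1 hr
    refine (ih' _ (h1 j)).2 M₂ hM₂ (hρ₁.trans h12) (by omega) fun B hB => ?_
    rcases List.mem_cons.1 hB with rfl | hB
    · exact ff_of_runs (runs_neg.2 hrj)
    · exact (hall₁ B (by simp [hB])).mono h12
  | @dneg A Γ h1 =>
    refine (ih' _ h1).2 M₁ hM₁ hρ₁ (by omega) fun B hB => ?_
    rcases List.mem_cons.1 hB with rfl | hB
    · intro M₂ hM₂ h12 hr
      exact hall₁ (.neg (.neg B)) (by simp) M₂ hM₂ h12 (runs_neg.2 (runs_neg.2 hr))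
    · exact hall₁ B (by simp [hB])

lemma lv_mono {s : ℕ} (hs : 1 ≤ s) {r r' : ℕ} (h : r ≤ r') : lv s r ≤ lv s r' := by
  have hmono : ∀ r, lv s r ≤ lv s (r + 1) := by
    intro r
    have := arith_round (le_lv s r hs) hs
    simp only [lv]
    have := Nat.zero_le (64 * s * ((lv s r + 1) * (lv s r + 2)) * ((lv s r + 1) * lv s r))
    omega
  exact monotone_nat_of_le_succ hmono h

/-- The lower bound for the given data. -/
theorem no_short {d N s : ℕ} (hs : 1 ≤ s) {C : Fin N → List (Fm n m)} (hok : c.Ok)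
    (hD : IsCircuit D c.S) (hov : ∀ e, inc e (ov e)) (hmov : c.Movable ov s)
    (hW : ∀ i, (c.W i).card ≤ s) (hρ₀ : IsM c.ρ₀) (hρc : c.ρ₀.card + lv s (d + 1) ≤ n)
    (hR : IsRefutation D C) (hd : ∀ i, ∀ A ∈ C i, A.depth ≤ d)
    (hcon : totalSize C < 4 ^ s) : False := by
  have hlv : lv s (d + 1) ≤ n := by omega
  have ht0 : ∀ w, (vt c w).depth ≤ 2 * s :=
    vt_depth (by omega) (fun i => (hW i).trans (by omega))
  -- the first restriction
  obtain ⟨ρ₁, hρ₁⟩ := exts_nonempty hρ₀ (c := n - lv s (d + 1)) (by omega) (by omega)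
  obtain ⟨hM₁, hsub₁, hc₁⟩ := mem_exts.1 hρ₁
  obtain ⟨ρ, t, hρ, hρρ, hc, ht⟩ := exists_table (C := C) hs (vt c) ht0 hlv (by omega)
    hM₁ hc₁ d le_rfl
  have hdepth : ∀ A ∈ allSubs C, A.depth ≤ d := by
    intro A hA
    obtain ⟨i, B, hB, hAB⟩ := mem_allSubs.1 hA
    exact (depth_subs hAB).trans (hd i B hB)
  have hneg : ∀ A, .neg A ∈ allSubs C → A ∈ allSubs C := by
    intro A hA
    obtain ⟨i, B, hB, hAB⟩ := mem_allSubs.1 hA
    exact mem_allSubs.2 ⟨i, B, hB, neg_mem_subs hAB⟩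
  have hdep : ∀ A ∈ allSubs C, (tr (vt c) t A).depth ≤ 2 * s := by
    intro A
    induction A with
    | var w => intro _; exact ht0 w
    | neg A ih => intro hA; simp only [tr, depth_flip]; exact ih (hneg A hA)
    | or k f _ => intro hA; exact (ht k f hA (hdepth _ hA)).1
  have hmem : ∀ i, ∀ A ∈ C i, A ∈ allSubs C := fun i A hA =>
    mem_allSubs.2 ⟨i, A, hA, self_mem_subs A⟩
  have e1 : d + 1 - d = 0 + 1 := by omega
  have e2 : lv s (d + 1 - d) = 16 * (lv s 0) ^ 5 := by rw [e1]; rfl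
  have hle1 : lv s (d + 1 - d) ≤ n := (lv_mono hs (by omega)).trans hlv
  have hle0 : lv s 0 ≤ n := (lv_mono hs (by omega)).trans hlv
  have hsz := card_allSubs C
  obtain ⟨ρ', hρ', hρρ', hc', hU⟩ := exists_round (T := tr (vt c) t) hρ hs (le_lv s 0 hs)
    (by rw [← e2]; exact hle1) (by rw [← e2]; exact hc) (univ : Finset (Fin N))
    (by rw [card_univ, Fintype.card_fin]; omega) (fun i => {A | A ∈ C i})
    (fun i _ A hA => hdep A (hmem i A hA))
  have hl0 : lv s 0 = 8 * s := rfl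
  have st : SymSetting D c ov ρ' t s (2 * s) (allSubs C) :=
    { circ := hD
      ok := hok
      ovinc := hov
      mov := hmov
      wpos := hs
      wh := le_rfl
      wle := hW
      sub := hsub₁.trans (hρρ.trans hρρ')
      isM := hρ'
      card := by rw [hc']; omega
      neg := hneg
      dep := hdep
      good := fun k f hA => ((ht k f hA (hdepth _ hA)).2).mono hρρ' }
  obtain ⟨hsteps, i, hi⟩ := hR
  refine no_forced_sym st hsteps hmem (fun i => hU i (mem_univ i)) i ρ' hρ' subset_rfl ?_ ?_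
  · rw [hc']; omega
  · rw [hi]; simp

/-! ### Numerical estimates -/

lemma factorial_succ_le (s : ℕ) : (s + 1).factorial ≤ (s + 1) ^ s := by
  induction s with
  | zero => simp
  | succ s ih =>
    rw [Nat.factorial_succ, pow_succ, mul_comm]
    exact Nat.mul_le_mul_right _ (ih.trans (Nat.pow_le_pow_left (by omega) _))

lemma four_pow_mul_le_choose {s N : ℕ} (hN : 4 * (s + 1) + s ≤ N) :
    4 ^ s * N ≤ N.choose (s + 1) := by
  obtain ⟨N', rfl⟩ : ∃ N', N = N' + 1 := ⟨N - 1, by omega⟩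
  have h1 : (N' + 1).descFactorial (s + 1) = (N' + 1) * N'.descFactorial s :=
    Nat.succ_descFactorial_succ N' s
  have h2 := Nat.pow_sub_le_descFactorial N' s
  have h3 : (4 * (s + 1)) ^ s ≤ (N' + 1 - s) ^ s := Nat.pow_le_pow_left (by omega) s
  have h4 := Nat.descFactorial_eq_factorial_mul_choose (N' + 1) (s + 1)
  have h5 := factorial_succ_le s
  have h6 : (s + 1).factorial * (4 ^ s * (N' + 1)) ≤
      (s + 1).factorial * (N' + 1).choose (s + 1) := by
    rw [← h4, h1]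
    calc (s + 1).factorial * (4 ^ s * (N' + 1)) ≤ (s + 1) ^ s * (4 ^ s * (N' + 1)) :=
          Nat.mul_le_mul_right _ h5
      _ = (N' + 1) * (4 * (s + 1)) ^ s := by rw [mul_pow]; ring
      _ ≤ (N' + 1) * N'.descFactorial s := Nat.mul_le_mul_left _ (h3.trans h2)
  exact Nat.le_of_mul_le_mul_left h6 (Nat.factorial_pos _)

lemma four_pow_le_factorial {s : ℕ} (hs : 1 ≤ s) : 4 ^ s ≤ (4 * s).factorial := by
  induction s, hs using Nat.le_induction with
  | base => decide
  | succ s hs ih =>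
    have h1 : (4 * s + 1).factorial = (4 * s + 1) * (4 * s).factorial := Nat.factorial_succ _
    have h2 : (4 * s + 1).factorial ≤ (4 * (s + 1)).factorial := Nat.factorial_le (by omega)
    rw [pow_succ]
    calc 4 ^ s * 4 ≤ (4 * s).factorial * (4 * s + 1) := Nat.mul_le_mul ih (by omega)
      _ = (4 * s + 1).factorial := by rw [h1, mul_comm]
      _ ≤ _ := h2

lemma card_outer_le {Ω : Type*} [DecidableEq Ω] [Fintype Ω] {K : Subgroup (Perm Ω)} {s : ℕ}
    (hs : 1 ≤ s) (hidx : Nat.card (Perm Ω ⧸ K) ≤ m) (hm : m < 4 ^ s)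
    (hn : 8 * s * (s + 1) ≤ Fintype.card Ω) : (outer K).card ≤ s := by
  have hmf : m < (4 * s).factorial := hm.trans_le (four_pow_le_factorial hs)
  have hn5 : 4 * (s + 1) + s ≤ Fintype.card Ω := by nlinarith
  have h1 : (outer K).card < s + 1 := by
    apply card_outer_lt hidx hmf (by omega)
    · calc 2 * (4 * s) * (s + 1) = 8 * s * (s + 1) := by ring
        _ ≤ _ := hn
    · exact (Nat.mul_lt_mul_of_pos_right hm (by omega)).trans_le (four_pow_mul_le_choose hn5)
  omega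

lemma lv_bounds {s d : ℕ} (hs : 1 ≤ s) :
    8 * s * (s + 1) ≤ lv s (d + 1) ∧ 3 * s + 2 ≤ lv s (d + 1) := by
  have h1 : lv s 1 = 16 * (8 * s) ^ 5 := rfl
  have h2 : (8 * s) ^ 2 ≤ (8 * s) ^ 5 := Nat.pow_le_pow_right (by omega) (by omega)
  have h3 : lv s 1 ≤ lv s (d + 1) := lv_mono hs (by omega)
  constructor <;> nlinarith

/-- The lower bound when many holes are interchangeable. -/
theorem lower_bound_holes {d N s : ℕ} (hs : 1 ≤ s) {C : Fin N → List (Fm n m)}
    {S : Fin m → Finset (Var n m × Bool)} {H : Finset (Fin n)} (hD : IsCircuit D S)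
    (hS : HoleSymmetric S H) (hR : IsRefutation D C) (hd : ∀ i, ∀ A ∈ C i, A.depth ≤ d)
    (hlv : lv s (d + 1) ≤ H.card) : 4 ^ s ≤ m + totalSize C := by
  by_contra hcon
  push Not at hcon
  obtain ⟨hb1, hb2⟩ := lv_bounds (d := d) hs
  have hHn : H.card ≤ n := by simpa using card_le_univ H
  -- the fixed matching
  let ρ₀ : Finset (Edge n) := (univ \ H).image fun h => (h.castSucc, h)
  have hmem : ∀ e ∈ ρ₀, e.1 = e.2.castSucc ∧ e.2 ∉ H := by
    intro e he
    obtain ⟨h, hh, rfl⟩ := mem_image.1 he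
    exact ⟨rfl, (mem_sdiff.1 hh).2⟩
  have hρM : IsM ρ₀ := by
    intro e he f hf hef
    obtain ⟨he1, _⟩ := hmem e he
    obtain ⟨hf1, _⟩ := hmem f hf
    have h2 : e.2 = f.2 := by
      rcases hef with h | h
      · rw [he1, hf1] at h
        exact Fin.castSucc_injective _ h
      · exact h
    exact Prod.ext (by rw [he1, hf1, h2]) h2
  have hρc : ρ₀.card = n - H.card := by
    change ((univ \ H).image fun h : Fin n => (h.castSucc, h)).card = _
    rw [card_image_of_injective _ (fun a b hab => (Prod.ext_iff.1 hab).2),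
      card_sdiff_of_subset (subset_univ H), card_univ, Fintype.card_fin]
  have hρ2 : ∀ h ∉ H, ∃ e ∈ ρ₀, e.2 = h := fun h hh =>
    ⟨(h.castSucc, h), mem_image.2 ⟨h, mem_sdiff.2 ⟨mem_univ _, hh⟩, rfl⟩, rfl⟩
  have hW : ∀ i, ((holeCtx S H ρ₀).W i).card ≤ s := by
    intro i
    refine le_trans card_image_le ?_
    apply card_outer_le hs (index_HH hS i) (by omega)
    rw [Fintype.card_coe]
    omega
  exact no_short (c := holeCtx S H ρ₀) (ov := fun e => Sum.inl e.1) (d := d) hs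
    (holeCtx_ok (fun i => (hD i).2) ρ₀) hD (fun _ => rfl)
    (hole_movable (fun e he => (hmem e he).2) hρ2 hW (by omega)) hW hρM
    (by change ρ₀.card + _ ≤ n; omega) hR hd (by omega)

/-- The lower bound when many pigeons are interchangeable. -/
theorem lower_bound_pigeons {d N s : ℕ} (hs : 1 ≤ s) {C : Fin N → List (Fm n m)}
    {S : Fin m → Finset (Var n m × Bool)} {P : Finset (Fin (n + 1))} (hD : IsCircuit D S)
    (hS : PigeonSymmetric S P) (hR : IsRefutation D C) (hd : ∀ i, ∀ A ∈ C i, A.depth ≤ d)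
    (hlv : lv s (d + 1) + 1 ≤ P.card) : 4 ^ s ≤ m + totalSize C := by
  by_contra hcon
  push Not at hcon
  obtain ⟨hb1, hb2⟩ := lv_bounds (d := d) hs
  have hPn : P.card ≤ n + 1 := by simpa using card_le_univ P
  -- the fixed matching
  have hcard : (univ \ P).card = n + 1 - P.card := by
    rw [card_sdiff_of_subset (subset_univ P), card_univ, Fintype.card_fin]
  obtain ⟨g⟩ : Nonempty ({p // p ∈ univ \ P} ↪ Fin n) := by
    apply Function.Embedding.nonempty_of_card_le
    rw [Fintype.card_coe, Fintype.card_fin, hcard]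
    omega
  let ρ₀ : Finset (Edge n) := univ.image fun p : {p // p ∈ univ \ P} => (p.1, g p)
  have hmem : ∀ e ∈ ρ₀, ∃ p : {p // p ∈ univ \ P}, (p.1, g p) = e := by
    intro e he
    obtain ⟨p, _, hp⟩ := mem_image.1 he
    exact ⟨p, hp⟩
  have hρM : IsM ρ₀ := by
    intro e he f hf hef
    obtain ⟨p, rfl⟩ := hmem e he
    obtain ⟨q, rfl⟩ := hmem f hf
    have h2 : p = q := by
      rcases hef with h | h
      · exact Subtype.ext h
      · exact g.injective h
    rw [h2]
  have hρc : ρ₀.card = n + 1 - P.card := by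
    change (univ.image fun p : {p // p ∈ univ \ P} => (p.1, g p)).card = _
    rw [card_image_of_injective _ (fun a b hab => Subtype.ext (Prod.ext_iff.1 hab).1),
      card_univ, Fintype.card_coe, hcard]
  have hρ1 : ∀ e ∈ ρ₀, e.1 ∉ P := by
    intro e he
    obtain ⟨p, rfl⟩ := hmem e he
    exact (mem_sdiff.1 p.2).2
  have hρ2 : ∀ p ∉ P, ∃ e ∈ ρ₀, e.1 = p := fun p hp =>
    ⟨(p, g ⟨p, mem_sdiff.2 ⟨mem_univ _, hp⟩⟩),
      mem_image.2 ⟨⟨p, mem_sdiff.2 ⟨mem_univ _, hp⟩⟩, mem_univ _, rfl⟩, rfl⟩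
  have hW : ∀ i, ((pigCtx S P ρ₀).W i).card ≤ s := by
    intro i
    refine le_trans card_image_le ?_
    apply card_outer_le hs (index_HP hS i) (by omega)
    rw [Fintype.card_coe]
    omega
  exact no_short (c := pigCtx S P ρ₀) (ov := fun e => Sum.inr e.2) (d := d) hs
    (pigCtx_ok (fun i => (hD i).2) ρ₀) hD (fun _ => rfl)
    (pig_movable hρ1 hρ2 hW (by omega)) hW hρM
    (by change ρ₀.card + _ ≤ n; omega) hR hd (by omega)

/-! ### The final statement -/

lemma two_le_size {N : ℕ} (hn : 0 < n) {C : Fin N → List (Fm n m)}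
    (hR : IsRefutation D C) : 2 ≤ totalSize C := by
  obtain ⟨hC, i, hi⟩ := hR
  have hN : 2 ≤ N := by
    have h := hC i
    rw [hi] at h
    have key : ∀ Γ, (∃ s < i, C s = Γ) → 2 ≤ N := by
      rintro Γ ⟨s, hs, _⟩
      have h1 := i.isLt
      have h2 : s.val < i.val := hs
      omega
    generalize hL : ([] : List (Fm n m)) = L at h
    cases h with
    | pigeon p =>
      have := congrArg List.length hL
      simp at this
      omega
    | hole q =>
      have := congrArg List.length hL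
      simp at this
    | excl e f _ _ => cases hL
    | extLeft j => cases hL
    | extRight j => cases hL
    | middle A => cases hL
    | weak h1 _ => exact key _ h1
    | cut h1 _ => exact key _ h1
    | orIntro j h1 => exact key _ h1
    | norIntro h1 => cases hL
    | dneg h1 => exact key _ h1
  have : N ≤ totalSize C := by
    have := card_allSubs C
    omega
  omega

lemma two_mul_lv (s r : ℕ) : 2 * lv s r = (16 * s) ^ (5 ^ r) := by
  induction r with
  | zero => simp only [lv, pow_zero, pow_one]; ring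
  | succ r ih =>
    calc 2 * lv s (r + 1) = (2 * lv s r) ^ 5 := by simp only [lv]; ring
      _ = (16 * s) ^ (5 ^ (r + 1)) := by rw [ih, ← pow_mul, pow_succ]

/-- Either many pigeons or many holes are interchangeable. -/
theorem main {d N q : ℕ} {C : Fin N → List (Fm n m)} (hn : 0 < n)
    {S : Fin m → Finset (Var n m × Bool)} (hD : IsCircuit D S)
    (hS : (∃ P : Finset (Fin (n + 1)), q ≤ P.card ∧ PigeonSymmetric S P) ∨
      ∃ H : Finset (Fin n), q ≤ H.card ∧ HoleSymmetric S H)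
    (hR : IsRefutation D C) (hd : ∀ i, ∀ A ∈ C i, A.depth ≤ d) :
    (2 : ℝ) ^ ((q : ℝ) ^ ((1 : ℝ) / 5 ^ (d + 1)) / 16) ≤ m + totalSize C := by
  set E : ℕ := 5 ^ (d + 1) with hE
  have hE1 : 1 ≤ E := Nat.one_le_pow _ _ (by norm_num)
  have hexp : (1 : ℝ) / 5 ^ (d + 1) = ((E : ℕ) : ℝ)⁻¹ := by
    rw [hE]; push_cast; rw [one_div]
  rw [hexp]
  have hm0 : (0 : ℝ) ≤ m := by positivity
  have hq0 : (0 : ℝ) ≤ (q : ℝ) := by positivity
  obtain ⟨x, hx⟩ : ∃ x : ℝ, x = (q : ℝ) ^ (((E : ℕ) : ℝ)⁻¹) := ⟨_, rfl⟩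
  rw [← hx]
  have hx0 : 0 ≤ x := by rw [hx]; exact Real.rpow_nonneg hq0 _
  have hxpow : x ^ E = (q : ℝ) := by
    rw [hx]; exact Real.rpow_inv_natCast_pow hq0 (by omega)
  by_cases hx16 : x < 16
  · have h2 : (2 : ℝ) ≤ totalSize C := by exact_mod_cast two_le_size hn hR
    have h1 : (2 : ℝ) ^ (x / 16) ≤ (2 : ℝ) ^ (1 : ℝ) :=
      Real.rpow_le_rpow_of_exponent_le (by norm_num) (by linarith)
    rw [Real.rpow_one] at h1
    linarith
  push Not at hx16
  obtain ⟨s, hsdef⟩ : ∃ s : ℕ, s = ⌊x / 16⌋₊ := ⟨_, rfl⟩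
  have hs1 : 1 ≤ s := by
    rw [hsdef]
    apply Nat.le_floor
    push_cast
    linarith
  have hsle : (s : ℝ) ≤ x / 16 := by
    rw [hsdef]; exact Nat.floor_le (by linarith)
  have hslt : x / 16 < s + 1 := by
    rw [hsdef]; exact Nat.lt_floor_add_one _
  have h3 : ((16 * s : ℕ) : ℝ) ^ E ≤ q := by
    rw [← hxpow]
    apply pow_le_pow_left₀ (by positivity)
    push_cast
    linarith
  have h4 : (16 * s) ^ E ≤ q := by exact_mod_cast h3
  have h5 : 2 * lv s (d + 1) ≤ q := by rw [two_mul_lv, ← hE]; exact h4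
  have h6 := (lv_bounds (d := d) hs1).2
  have key : 4 ^ s ≤ m + totalSize C := by
    rcases hS with ⟨P, hP, hPS⟩ | ⟨H, hH, hHS⟩
    · exact lower_bound_pigeons hs1 hD hPS hR hd (by omega)
    · exact lower_bound_holes hs1 hD hHS hR hd (by omega)
  have h7 : (2 : ℝ) ^ (x / 16) ≤ (2 : ℝ) ^ ((s : ℝ) + 1) :=
    Real.rpow_le_rpow_of_exponent_le (by norm_num) hslt.le
  have h8 : (2 : ℝ) ^ ((s : ℝ) + 1) = ((2 ^ (s + 1) : ℕ) : ℝ) := by
    rw [Real.rpow_add (by norm_num), Real.rpow_natCast, Real.rpow_one, pow_succ]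
    push_cast
    ring
  have h9 : 2 ^ (s + 1) ≤ 4 ^ s := by
    have : 2 ^ (s + 1) ≤ 2 ^ (2 * s) := Nat.pow_le_pow_right (by norm_num) (by omega)
    calc 2 ^ (s + 1) ≤ 2 ^ (2 * s) := this
      _ = 4 ^ s := by rw [pow_mul]; norm_num
  have h10 : ((2 ^ (s + 1) : ℕ) : ℝ) ≤ ((m + totalSize C : ℕ) : ℝ) := by
    exact_mod_cast h9.trans key
  rw [h8] at h7
  push_cast at h7 h10 ⊢
  linarith

end Pool.Agent.Lib.MP_e81270_lc_Sym
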