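import Pool.Agent.Lib.MP_e81270_lc_LocalExt.Defs

/-!
# Symmetric extension variables

Definitions used in the statement of the hand-in `SymmetricExtension` of `MP_e81270_lc`, in
addition to those of `Pool.Agent.Lib.MP_e81270_lc_LocalExt.Defs`.
-/

set_option autoImplicit false

namespace Pool.Agent.Lib.MP_e81270_lc_Sym

open Pool.Agent.Lib.MP_e81270_lc_LocalExt

variable {n m : ℕ}

/-- The formula of a literal: the variable `x` or its negation. -/
def lit : Var n m × Bool → Fm n m
  | (x, true) => .var x
  | (x, false) => .neg (.var x)

/-- The extension definitions form a circuit with the sets of inputs `S`: the extension variable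
`i` abbreviates the disjunction, in some order, of the literals in `S i`, and `S i` contains only
pigeonhole variables, extension variables `j < i`, and their negations. -/
def IsCircuit (D : Fin m → Fm n m) (S : Fin m → Finset (Var n m × Bool)) : Prop :=
  ∀ i, (∃ (k : ℕ) (f : Fin k → Fm n m), D i = .or k f ∧ Set.range f = lit '' (S i)) ∧
    ∀ j b, (.inr j, b) ∈ S i → j < i

/-- Renaming of the variable of a literal: `σ` renames the pigeons, `τ` the holes, `π` the
extension variables. -/
def rename (σ : Equiv.Perm (Fin (n + 1))) (τ : Equiv.Perm (Fin n)) (π : Equiv.Perm (Fin m))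
    (l : Var n m × Bool) : Var n m × Bool :=
  (Sum.map (Prod.map σ τ) π l.1, l.2)

/-- The circuit is symmetric in the pigeons from `P`: every permutation of `P` extends to the
extension variables in such a way that the renaming takes the inputs of each extension variable
`i` to the inputs of `π i`. -/
def PigeonSymmetric (S : Fin m → Finset (Var n m × Bool)) (P : Finset (Fin (n + 1))) : Prop :=
  ∀ σ : Equiv.Perm (Fin (n + 1)), (∀ p ∉ P, σ p = p) →
    ∃ π : Equiv.Perm (Fin m), ∀ i l, l ∈ S i ↔ rename σ 1 π l ∈ S (π i)

/-- The circuit is symmetric in the holes from `H`. -/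
def HoleSymmetric (S : Fin m → Finset (Var n m × Bool)) (H : Finset (Fin n)) : Prop :=
  ∀ τ : Equiv.Perm (Fin n), (∀ h ∉ H, τ h = h) →
    ∃ π : Equiv.Perm (Fin m), ∀ i l, l ∈ S i ↔ rename 1 τ π l ∈ S (π i)

end Pool.Agent.Lib.MP_e81270_lc_Sym
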