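import Mathlib

/-!
# Subgroups of small index of a symmetric group

A subgroup of small index of the symmetric group on a large set contains all 3-cycles on a subset
that misses only few points, and this subset is determined in an invariant way.
-/

set_option autoImplicit false

namespace Pool.Agent.Lib.MP_e81270_lc_Sym

open Equiv Equiv.Perm

variable {Ω : Type*} [DecidableEq Ω]

omit [DecidableEq Ω] in
lemma apply_inv' (g : Perm Ω) (x : Ω) : g (g⁻¹ x) = x := by simp

omit [DecidableEq Ω] in
lemma inv_apply' (g : Perm Ω) (x : Ω) : g⁻¹ (g x) = x := by simp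

/-- The 3-cycle `a → b → c → a`. -/
def cyc (a b c : Ω) : Perm Ω := swap a b * swap b c

lemma cyc_a {a b c : Ω} (hab : a ≠ b) (hac : a ≠ c) : cyc a b c a = b := by
  simp [cyc, swap_apply_of_ne_of_ne hab hac]

lemma cyc_b {a b c : Ω} (hac : a ≠ c) (hbc : b ≠ c) : cyc a b c b = c := by
  simp [cyc, swap_apply_of_ne_of_ne hac.symm hbc.symm]

lemma cyc_c {a b c : Ω} : cyc a b c c = a := by
  simp [cyc]

lemma cyc_of_ne {a b c x : Ω} (ha : x ≠ a) (hb : x ≠ b) (hc : x ≠ c) : cyc a b c x = x := by
  simp [cyc, swap_apply_of_ne_of_ne hb hc, swap_apply_of_ne_of_ne ha hb]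

lemma conj_cyc (g : Perm Ω) (a b c : Ω) : g * cyc a b c * g⁻¹ = cyc (g a) (g b) (g c) := by
  unfold cyc
  rw [swap_apply_apply, swap_apply_apply]
  group

lemma cyc_inv {a b c : Ω} (hab : a ≠ b) (hac : a ≠ c) (hbc : b ≠ c) :
    (cyc a b c)⁻¹ = cyc c b a := by
  rw [inv_eq_iff_mul_eq_one]
  ext x
  simp only [Perm.mul_apply, Perm.one_apply]
  by_cases h1 : x = a
  · subst h1
    rw [cyc_c, cyc_c]
  by_cases h2 : x = b
  · subst h2
    rw [cyc_b hac.symm hab.symm, cyc_a hab hac]
  by_cases h3 : x = c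
  · subst h3
    rw [cyc_a hbc.symm hac.symm, cyc_b hac hbc]
  rw [cyc_of_ne h3 h2 h1, cyc_of_ne h1 h2 h3]

lemma cyc_rot {a b c : Ω} (hab : a ≠ b) (hac : a ≠ c) (hbc : b ≠ c) :
    cyc a b c = cyc b c a := by
  ext x
  by_cases h1 : x = a
  · subst h1
    rw [cyc_a hab hac, cyc_c]
  by_cases h2 : x = b
  · subst h2
    rw [cyc_b hac hbc, cyc_a hbc hab.symm]
  by_cases h3 : x = c
  · subst h3
    rw [cyc_c, cyc_b hab.symm hac.symm]
  rw [cyc_of_ne h1 h2 h3, cyc_of_ne h2 h3 h1]

/-- Two points are related if they are equal or some 3-cycle in `H` moves both. -/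
def Rel (H : Subgroup (Perm Ω)) (a b : Ω) : Prop :=
  a = b ∨ (a ≠ b ∧ ∃ c, c ≠ a ∧ c ≠ b ∧ cyc a b c ∈ H)

variable {H : Subgroup (Perm Ω)}

lemma Rel.symm {a b : Ω} (h : Rel H a b) : Rel H b a := by
  rcases h with rfl | ⟨hab, c, hca, hcb, hc⟩
  · exact Or.inl rfl
  · refine Or.inr ⟨hab.symm, c, hcb, hca, ?_⟩
    have h1 : (cyc a b c)⁻¹ = cyc b a c := by
      rw [cyc_inv hab hca.symm hcb.symm]
      exact cyc_rot hcb hca hab.symm
    rw [← h1]
    exact H.inv_mem hc

/-- Three distinct points, the first related to the two others: the 3-cycle on them is in `H`. -/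
lemma cyc_mem {a b c : Ω} (hab : a ≠ b) (hac : a ≠ c) (hbc : b ≠ c) (h1 : Rel H a b)
    (h2 : Rel H a c) : cyc a b c ∈ H := by
  rcases h1 with h1 | ⟨_, x, hxa, hxb, hx⟩
  · exact absurd h1 hab
  rcases h2 with h2 | ⟨_, y, hya, hyc, hy⟩
  · exact absurd h2 hac
  by_cases hxc : x = c
  · rw [hxc] at hx; exact hx
  have inv' : ∀ {p q r : Ω}, p ≠ q → p ≠ r → q ≠ r → cyc p q r ∈ H → cyc r q p ∈ H := by
    intro p q r hpq hpr hqr h
    rw [← cyc_inv hpq hpr hqr]
    exact H.inv_mem h
  by_cases hyb : y = b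
  · subst hyb
    -- cyc a c b ∈ H, so cyc b c a ∈ H, and this is cyc a b c
    have h3 := inv' hac hab hbc.symm hy
    rw [cyc_rot hab hac hbc]
    exact h3
  by_cases hxy : x = y
  · subst hxy
    -- conjugate cyc a b x by cyc a c x
    have h3 : cyc a c x * cyc a b x * (cyc a c x)⁻¹ ∈ H :=
      H.mul_mem (H.mul_mem hy hx) (H.inv_mem hy)
    rw [conj_cyc, cyc_a hac hxa.symm, cyc_of_ne hab.symm hbc (Ne.symm hxb), cyc_c] at h3
    exact inv' hbc.symm hac.symm hab.symm h3
  -- general case
  have h3 : cyc a b x * (cyc a b x * cyc a c y * (cyc a b x)⁻¹) * (cyc a b x)⁻¹ ∈ H :=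
    H.mul_mem (H.mul_mem hx (H.mul_mem (H.mul_mem hx hy) (H.inv_mem hx))) (H.inv_mem hx)
  rw [conj_cyc, conj_cyc, cyc_a hab hxa.symm, cyc_b hxa.symm hxb.symm,
    cyc_of_ne hac.symm hbc.symm (Ne.symm hxc), cyc_of_ne hac.symm hbc.symm (Ne.symm hxc),
    cyc_of_ne hya hyb (Ne.symm hxy), cyc_of_ne hya hyb (Ne.symm hxy)] at h3
  -- h3 : cyc x c y ∈ H
  have h4 : cyc x c y * cyc a b x * (cyc x c y)⁻¹ ∈ H :=
    H.mul_mem (H.mul_mem h3 hx) (H.inv_mem h3)
  rw [conj_cyc, cyc_of_ne hxa.symm hac hya.symm, cyc_of_ne hxb.symm hbc (Ne.symm hyb),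
    cyc_a hxc hxy] at h4
  exact h4

lemma Rel.trans {a b c : Ω} (h1 : Rel H a b) (h2 : Rel H b c) : Rel H a c := by
  by_cases hac : a = c
  · exact Or.inl hac
  by_cases hab : a = b
  · rw [hab]; exact h2
  by_cases hbc : b = c
  · rw [← hbc]; exact h1
  have h3 := cyc_mem (Ne.symm hab) hbc hac h1.symm h2
  -- cyc b a c ∈ H
  refine Or.inr ⟨hac, b, Ne.symm hab, hbc, ?_⟩
  rw [cyc_rot (Ne.symm hab) hbc hac] at h3
  exact h3

lemma Rel.conj {a b : Ω} (h : Rel H a b) {g : Perm Ω} {H' : Subgroup (Perm Ω)}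
    (hg : ∀ x ∈ H, g * x * g⁻¹ ∈ H') : Rel H' (g a) (g b) := by
  rcases h with rfl | ⟨hab, c, hca, hcb, hc⟩
  · exact Or.inl rfl
  · refine Or.inr ⟨g.injective.ne hab, g c, g.injective.ne hca, g.injective.ne hcb, ?_⟩
    rw [← conj_cyc]
    exact hg _ hc

variable [Fintype Ω]

open Classical in
/-- The class of `a`. -/
noncomputable def cls (H : Subgroup (Perm Ω)) (a : Ω) : Finset Ω :=
  Finset.univ.filter fun b => Rel H a b

lemma mem_cls {a b : Ω} : b ∈ cls H a ↔ Rel H a b := by simp [cls]

lemma self_mem_cls (a : Ω) : a ∈ cls H a := mem_cls.2 (Or.inl rfl)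

lemma cls_eq {a b : Ω} (h : Rel H a b) : cls H a = cls H b := by
  ext c
  rw [mem_cls, mem_cls]
  exact ⟨fun h' => h.symm.trans h', fun h' => h.trans h'⟩

/-! ### A subgroup without 3-cycles has large index -/

/-- If `H` contains no 3-cycle on points of `D`, its index is at least `⌈|D| / 2⌉!`. -/
lemma factorial_le_index (D : Finset Ω)
    (hD : ∀ a ∈ D, ∀ b ∈ D, ∀ c ∈ D, a ≠ b → a ≠ c → b ≠ c → cyc a b c ∉ H) :
    ((D.card + 1) / 2).factorial ≤ Nat.card (Perm Ω ⧸ H) := by
  classical
  -- bases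
  let bases : Finset (Finset Ω) := D.powerset.filter fun Δ =>
    ∀ h ∈ H, (∀ x, x ∉ D \ Δ → h x = x) → h = 1
  have hne : bases.Nonempty := by
    refine ⟨D, ?_⟩
    simp only [bases, Finset.mem_filter, Finset.mem_powerset, subset_rfl, true_and]
    intro h _ hx
    ext x
    exact hx x (by simp)
  obtain ⟨Δ, hΔ, hmin⟩ := Finset.exists_min_image bases Finset.card hne
  simp only [bases, Finset.mem_filter, Finset.mem_powerset] at hΔ hmin
  obtain ⟨hΔD, hbase⟩ := hΔ
  -- the base is small
  have hsmall : 2 * Δ.card ≤ D.card := by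
    by_contra hcon
    push Not at hcon
    have hc : (D \ Δ).card + Δ.card = D.card := Finset.card_sdiff_add_card_eq_card hΔD
    have h1 : ¬ (∀ h ∈ H, (∀ x, x ∉ D \ (D \ Δ) → h x = x) → h = 1) := by
      intro h
      have := hmin (D \ Δ) ⟨Finset.sdiff_subset, h⟩
      omega
    push Not at h1
    obtain ⟨x, hxH, hx, hx1⟩ := h1
    have hx' : ∀ z, z ∉ Δ → x z = z := by
      intro z hz
      apply hx
      intro h1
      rw [Finset.mem_sdiff, Finset.mem_sdiff] at h1
      exact h1.2 ⟨h1.1, hz⟩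
    obtain ⟨α, hα⟩ : ∃ α, x α ≠ α := by
      by_contra h
      push Not at h
      exact hx1 (Equiv.ext h)
    have hαΔ : α ∈ Δ := by
      by_contra h
      exact hα (hx' α h)
    have h2 : ¬ (∀ h ∈ H, (∀ x, x ∉ D \ (Δ.erase α) → h x = x) → h = 1) := by
      intro h
      have := hmin (Δ.erase α) ⟨(Finset.erase_subset _ _).trans hΔD, h⟩
      have := Finset.card_erase_lt_of_mem hαΔ
      omega
    push Not at h2
    obtain ⟨y, hyH, hy, hy1⟩ := h2
    have hy' : ∀ z ∈ Δ, z ≠ α → y z = z := by
      intro z hz hzα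
      apply hy
      intro h1
      rw [Finset.mem_sdiff, Finset.mem_erase] at h1
      exact h1.2 ⟨hzα, hz⟩
    have hy'' : ∀ z, z ∉ D → y z = z := by
      intro z hz
      apply hy
      simp [hz]
    have hyα : y α ≠ α := by
      intro h
      apply hy1
      apply hbase y hyH
      intro z hz
      by_cases hzα : z = α
      · rw [hzα]; exact h
      by_cases hzΔ : z ∈ Δ
      · exact hy' z hzΔ hzα
      · apply hy''
        intro hzD
        exact hz (Finset.mem_sdiff.2 ⟨hzD, hzΔ⟩)
    -- the three points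
    have hxαΔ : x α ∈ Δ := by
      by_contra h
      have := hx' _ h
      exact hα (x.injective this)
    have hyαΔ : y α ∉ Δ := by
      intro h
      have := hy' _ h hyα
      exact hyα (y.injective this)
    have hyαD : y α ∈ D := by
      by_contra h
      have := hy'' _ h
      exact hyα (y.injective this)
    have hne3 : x α ≠ y α := fun h => hyαΔ (h ▸ hxαΔ)
    have key : x * y * x⁻¹ * y⁻¹ = cyc α (x α) (y α) := by
      ext p
      simp only [Perm.mul_apply]
      by_cases h1 : p = y α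
      · subst h1
        rw [cyc_c, inv_apply']
        have h3 : x⁻¹ α ∈ Δ := by
          by_contra h
          have := hx' _ h
          rw [apply_inv'] at this
          exact h (this ▸ hαΔ)
        have h4 : x⁻¹ α ≠ α := by
          intro h
          exact hα (by rw [inv_eq_iff_eq] at h; exact h.symm)
        rw [hy' _ h3 h4, apply_inv']
      by_cases h2 : p = α
      · subst h2
        rw [cyc_a (Ne.symm hα) (Ne.symm hyα)]
        have h3 : y⁻¹ p ∉ Δ := by
          intro h
          have h4 : y⁻¹ p ≠ p := by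
            intro h'
            exact hyα (by rw [inv_eq_iff_eq] at h'; exact h'.symm)
          have := hy' _ h h4
          rw [apply_inv'] at this
          exact h4 this.symm
        have h5 : x⁻¹ (y⁻¹ p) = y⁻¹ p := by
          rw [inv_eq_iff_eq]; exact (hx' _ h3).symm
        rw [h5, apply_inv']
      by_cases h3 : p = x α
      · subst h3
        rw [cyc_b (Ne.symm hyα) hne3]
        have h4 : y⁻¹ (x α) = x α := by
          rw [inv_eq_iff_eq]; exact (hy' _ hxαΔ hα).symm
        rw [h4, inv_apply']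
        exact hx' _ hyαΔ
      rw [cyc_of_ne h2 h3 h1]
      by_cases hpΔ : p ∈ Δ
      · have h4 : y⁻¹ p = p := by
          rw [inv_eq_iff_eq]; exact (hy' _ hpΔ h2).symm
        rw [h4]
        have h5 : x⁻¹ p ∈ Δ := by
          by_contra h
          have := hx' _ h
          rw [apply_inv'] at this
          exact h (this ▸ hpΔ)
        have h6 : x⁻¹ p ≠ α := by
          intro h
          rw [inv_eq_iff_eq] at h
          exact h3 h
        rw [hy' _ h5 h6, apply_inv']
      · have h4 : y⁻¹ p ∉ Δ := by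
          intro h
          have h5 : y⁻¹ p ≠ α := by
            intro h'
            rw [inv_eq_iff_eq] at h'
            exact h1 h'
          have := hy' _ h h5
          rw [apply_inv'] at this
          exact hpΔ (this ▸ h)
        have h5 : x⁻¹ (y⁻¹ p) = y⁻¹ p := by
          rw [inv_eq_iff_eq]; exact (hx' _ h4).symm
        rw [h5, apply_inv']
        exact hx' _ hpΔ
    have hmem : cyc α (x α) (y α) ∈ H := by
      rw [← key]
      exact H.mul_mem (H.mul_mem (H.mul_mem hxH hyH) (H.inv_mem hxH)) (H.inv_mem hyH)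
    exact hD α (hΔD hαΔ) (x α) (hΔD hxαΔ) (y α) hyαD (Ne.symm hα) (Ne.symm hyα) hne3 hmem
  -- many cosets
  have hc : (D \ Δ).card + Δ.card = D.card := Finset.card_sdiff_add_card_eq_card hΔD
  have hinj : Function.Injective fun g : Perm {x // x ∈ D \ Δ} =>
      (QuotientGroup.mk (ofSubtype g) : Perm Ω ⧸ H) := by
    intro g g' hgg
    have h1 : (ofSubtype g : Perm Ω)⁻¹ * ofSubtype g' ∈ H := QuotientGroup.eq.1 hgg
    rw [← map_inv, ← map_mul] at h1
    have h2 := hbase _ h1 (fun x hx => ofSubtype_apply_of_not_mem _ hx)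
    rw [map_eq_one_iff _ ofSubtype_injective] at h2
    exact (inv_mul_eq_one.1 h2)
  have hle := Nat.card_le_card_of_injective _ hinj
  rw [Nat.card_eq_fintype_card, Fintype.card_perm, Fintype.card_coe] at hle
  refine le_trans (Nat.factorial_le ?_) hle
  omega

/-! ### Counting the images of a class -/

lemma choose_le_index (a : Ω) :
    (Fintype.card Ω).choose (cls H a).card ≤ Nat.card (Perm Ω ⧸ H) * Fintype.card Ω := by
  classical
  set C := cls H a with hC
  -- for every set of this size choose a permutation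
  have hex : ∀ X : {X : Finset Ω // X.card = C.card}, ∃ g : Perm Ω, C.image g = X.1 := by
    rintro ⟨X, hX⟩
    obtain ⟨e⟩ : Nonempty ({x // x ∈ C} ≃ {x // x ∈ X}) :=
      ⟨Fintype.equivOfCardEq (by simp [hX])⟩
    obtain ⟨g, hg⟩ : ∃ g : Perm Ω, ∀ x : {x // x ∈ C}, g x = (e x : Ω) := by
      refine ⟨e.extendSubtype, fun x => ?_⟩
      exact e.extendSubtype_apply_of_mem x.1 x.2
    refine ⟨g, ?_⟩
    ext y
    simp only [Finset.mem_image]
    constructor
    · rintro ⟨x, hx, rfl⟩
      rw [hg ⟨x, hx⟩]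
      exact (e ⟨x, hx⟩).2
    · intro hy
      refine ⟨(e.symm ⟨y, hy⟩ : Ω), (e.symm ⟨y, hy⟩).2, ?_⟩
      rw [hg (e.symm ⟨y, hy⟩), Equiv.apply_symm_apply]
  choose g hg using hex
  let F : {X : Finset Ω // X.card = C.card} → (Perm Ω ⧸ H) × Ω := fun X =>
    (QuotientGroup.mk (g X), (QuotientGroup.mk (g X) : Perm Ω ⧸ H).out⁻¹ (g X a))
  have hF : Function.Injective F := by
    intro X Y hXY
    have h1 : (QuotientGroup.mk (g X) : Perm Ω ⧸ H) = QuotientGroup.mk (g Y) :=
      congrArg Prod.fst hXY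
    have h2 := congrArg Prod.snd hXY
    simp only [F] at h2
    -- reconstruct
    have recon : ∀ X : {X : Finset Ω // X.card = C.card},
        X.1 = (cls H ((QuotientGroup.mk (g X) : Perm Ω ⧸ H).out⁻¹ (g X a))).image
          (QuotientGroup.mk (g X) : Perm Ω ⧸ H).out := by
      intro X
      obtain ⟨h, hh⟩ := QuotientGroup.mk_out_eq_mul H (g X)
      have hq : (QuotientGroup.mk (g X) : Perm Ω ⧸ H).out = g X * (h : Perm Ω) := hh
      rw [hq, ← hg X]
      have h3 : (g X * (h : Perm Ω))⁻¹ (g X a) = (h : Perm Ω)⁻¹ a := by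
        rw [mul_inv_rev, Perm.mul_apply, inv_apply']
      rw [h3]
      ext y
      simp only [Finset.mem_image, Perm.mul_apply]
      constructor
      · rintro ⟨x, hx, rfl⟩
        refine ⟨(h : Perm Ω)⁻¹ x, ?_, by rw [apply_inv']⟩
        rw [mem_cls]
        refine (mem_cls.1 (hC ▸ hx)).conj (fun z hz => ?_)
        exact H.mul_mem (H.mul_mem (H.inv_mem h.2) hz) (H.inv_mem (H.inv_mem h.2))
      · rintro ⟨x, hx, rfl⟩
        refine ⟨(h : Perm Ω) x, ?_, rfl⟩
        rw [hC, mem_cls]
        have := (mem_cls.1 hx).conj (g := (h : Perm Ω)) (H' := H)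
          (fun z hz => H.mul_mem (H.mul_mem h.2 hz) (H.inv_mem h.2))
        rwa [apply_inv'] at this
    apply Subtype.ext
    rw [recon X, recon Y, h2, h1]
  have hle := Nat.card_le_card_of_injective F hF
  rw [Nat.card_prod, Nat.card_eq_fintype_card, Nat.card_eq_fintype_card (α := Ω)] at hle
  refine le_trans (le_of_eq ?_) hle
  rw [← Finset.card_univ (α := Ω), ← Finset.card_powersetCard, ← Fintype.card_coe]
  apply Fintype.card_congr
  exact Equiv.subtypeEquivRight (fun X => by simp)

lemma choose_mono_half {n k t : ℕ} (hk : k ≤ t) (ht : t ≤ n / 2) : n.choose k ≤ n.choose t := by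
  induction t, hk using Nat.le_induction with
  | base => exact le_rfl
  | succ t ht' ih =>
    exact (ih (by omega)).trans (Nat.choose_le_succ_of_lt_half_left (by omega))

lemma choose_le_choose_mid {n k c : ℕ} (h1 : k ≤ c) (h2 : k + c ≤ n) :
    n.choose k ≤ n.choose c := by
  by_cases hc : c ≤ n / 2
  · exact choose_mono_half h1 hc
  · rw [← Nat.choose_symm (n := n) (k := c) (by omega)]
    exact choose_mono_half (by omega) (by omega)

/-- The points outside the big class. -/
noncomputable def outer (H : Subgroup (Perm Ω)) : Finset Ω :=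
  Finset.univ.filter fun a => 2 * (cls H a).card ≤ Fintype.card Ω

/-- A subgroup of small index contains all 3-cycles on a set that misses few points. -/
theorem card_outer_lt {m ℓ k : ℕ} (hidx : Nat.card (Perm Ω ⧸ H) ≤ m) (hℓ : m < ℓ.factorial)
    (hk : 1 ≤ k) (hN : 2 * ℓ * k ≤ Fintype.card Ω)
    (hch : m * Fintype.card Ω < (Fintype.card Ω).choose k) : (outer H).card < k := by
  classical
  set N := Fintype.card Ω with hNdef
  have hℓ1 : 1 ≤ ℓ := by
    by_contra h
    have : ℓ = 0 := by omega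
    subst this
    have h0 : m = 0 := by simpa using hℓ
    have : 0 < Nat.card (Perm Ω ⧸ H) := Nat.card_pos
    omega
  -- a maximal set of representatives
  let indep : Finset (Finset Ω) := Finset.univ.filter fun D => ∀ a ∈ D, ∀ b ∈ D, Rel H a b → a = b
  have hne : indep.Nonempty := ⟨∅, by simp [indep]⟩
  obtain ⟨D, hD, hmax⟩ := Finset.exists_max_image indep Finset.card hne
  simp only [indep, Finset.mem_filter, Finset.mem_univ, true_and] at hD hmax
  have hDcard : D.card < 2 * ℓ := by
    have h1 := factorial_le_index (H := H) D (by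
      intro a ha b hb c _ hab hac hbc hcyc
      exact hab (hD a ha b hb (Or.inr ⟨hab, c, hac.symm, hbc.symm, hcyc⟩)))
    by_contra hcon
    push Not at hcon
    have h2 : ℓ ≤ (D.card + 1) / 2 := by omega
    have h3 := Nat.factorial_le h2
    omega
  have hcover : ∀ x : Ω, ∃ a ∈ D, Rel H a x := by
    intro x
    by_contra hcon
    push Not at hcon
    have hxD : x ∉ D := fun h => hcon x h (Or.inl rfl)
    have := hmax (insert x D) (by
      intro a ha b hb hab
      rw [Finset.mem_insert] at ha hb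
      rcases ha with rfl | ha <;> rcases hb with rfl | hb
      · rfl
      · exact absurd hab.symm (hcon b hb)
      · exact absurd hab (hcon a ha)
      · exact hD a ha b hb hab)
    rw [Finset.card_insert_of_notMem hxD] at this
    omega
  -- a big class
  have hbig : ∃ a ∈ D, k ≤ (cls H a).card := by
    by_contra hcon
    push Not at hcon
    have h1 : (Finset.univ : Finset Ω) ⊆ D.biUnion fun a => cls H a := by
      intro x _
      obtain ⟨a, ha, hax⟩ := hcover x
      exact Finset.mem_biUnion.2 ⟨a, ha, mem_cls.2 hax⟩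
    have h2 := (Finset.card_le_card h1).trans Finset.card_biUnion_le
    rw [Finset.card_univ] at h2
    have h3 : ∑ a ∈ D, (cls H a).card ≤ D.card * (k - 1) := by
      rw [← smul_eq_mul]
      exact Finset.sum_le_card_nsmul _ _ _ (fun a ha => by have := hcon a ha; omega)
    have h4 : D.card * (k - 1) ≤ (2 * ℓ - 1) * (k - 1) := Nat.mul_le_mul_right _ (by omega)
    have h5 : N ≤ (2 * ℓ - 1) * (k - 1) := h2.trans (h3.trans h4)
    have h6 : (2 * ℓ - 1) * (k - 1) ≤ (2 * ℓ - 1) * k := Nat.mul_le_mul_left _ (by omega)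
    have h7 : (2 * ℓ - 1) * k < 2 * ℓ * k := Nat.mul_lt_mul_of_pos_right (by omega) (by omega)
    omega
  obtain ⟨a, _, hka⟩ := hbig
  have hsmall : N < k + (cls H a).card := by
    by_contra hcon
    push Not at hcon
    have h1 := choose_le_choose_mid hka hcon
    have h2 := choose_le_index (H := H) a
    rw [← hNdef] at h2
    have h3 : Nat.card (Perm Ω ⧸ H) * N ≤ m * N := Nat.mul_le_mul_right _ hidx
    omega
  have hkN : 2 * k ≤ N := by
    have : 2 * 1 * k ≤ 2 * ℓ * k := Nat.mul_le_mul_right _ (by omega)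
    omega
  have hsub : outer H ⊆ (cls H a)ᶜ := by
    intro x hx
    rw [Finset.mem_compl, mem_cls]
    intro h
    simp only [outer, Finset.mem_filter, Finset.mem_univ, true_and] at hx
    rw [← cls_eq h, ← hNdef] at hx
    omega
  have h1 := Finset.card_le_card hsub
  rw [Finset.card_compl, ← hNdef] at h1
  omega

lemma cyc_mem_of_not_outer {a b c : Ω} (ha : a ∉ outer H) (hb : b ∉ outer H) (hc : c ∉ outer H)
    (hab : a ≠ b) (hac : a ≠ c) (hbc : b ≠ c) : cyc a b c ∈ H := by
  classical
  simp only [outer, Finset.mem_filter, Finset.mem_univ, true_and, not_le] at ha hb hc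
  have meet : ∀ x y : Ω, Fintype.card Ω < 2 * (cls H x).card →
      Fintype.card Ω < 2 * (cls H y).card → Rel H x y := by
    intro x y hx hy
    have h1 : ¬ Disjoint (cls H x) (cls H y) := by
      intro hd
      have := Finset.card_union_of_disjoint hd
      have h2 := Finset.card_le_univ (cls H x ∪ cls H y)
      omega
    rw [Finset.not_disjoint_iff] at h1
    obtain ⟨z, hz1, hz2⟩ := h1
    exact (mem_cls.1 hz1).trans (mem_cls.1 hz2).symm
  exact cyc_mem hab hac hbc (meet a b ha hb) (meet a c ha hc)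

lemma outer_conj {H H' : Subgroup (Perm Ω)} {g : Perm Ω} (h1 : ∀ x ∈ H, g * x * g⁻¹ ∈ H')
    (h2 : ∀ x ∈ H', g⁻¹ * x * g ∈ H) : outer H' = (outer H).image g := by
  classical
  have hcls : ∀ a, cls H' (g a) = (cls H a).image g := by
    intro a
    ext y
    rw [mem_cls, Finset.mem_image]
    constructor
    · intro h
      refine ⟨g⁻¹ y, ?_, apply_inv' _ _⟩
      rw [mem_cls]
      have := h.conj (g := g⁻¹) (H' := H) (fun x hx => by simpa using h2 x hx)
      rwa [inv_apply'] at this
    · rintro ⟨b, hb, rfl⟩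
      exact (mem_cls.1 hb).conj h1
  ext x
  rw [Finset.mem_image]
  constructor
  · intro hx
    refine ⟨g⁻¹ x, ?_, apply_inv' _ _⟩
    simp only [outer, Finset.mem_filter, Finset.mem_univ, true_and] at hx ⊢
    have := hcls (g⁻¹ x)
    rw [apply_inv'] at this
    rw [this, Finset.card_image_of_injective _ g.injective] at hx
    exact hx
  · rintro ⟨a, ha, rfl⟩
    simp only [outer, Finset.mem_filter, Finset.mem_univ, true_and] at ha ⊢
    rw [hcls, Finset.card_image_of_injective _ g.injective]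
    exact ha

end Pool.Agent.Lib.MP_e81270_lc_Sym
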