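import Pool.Agent.Lib.MP_e81270_lc_Sym.Defs
import Pool.Agent.Lib.MP_e81270_lc_Sym.Group
import Pool.Agent.Lib.MP_e81270_lc_LocalExt.Matching

/-!
# Truth values of symmetric extension variables
-/

set_option autoImplicit false

namespace Pool.Agent.Lib.MP_e81270_lc_Sym

open Pool.Agent.Lib.MP_e81270_lc_LocalExt Classical Finset Equiv

variable {n m : ℕ} {S : Fin m → Finset (Var n m × Bool)}

/-! ### Automorphisms -/

/-- The triple is an automorphism of the circuit. -/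
def Aut (S : Fin m → Finset (Var n m × Bool)) (σ : Perm (Fin (n + 1))) (τ : Perm (Fin n))
    (π : Perm (Fin m)) : Prop :=
  ∀ i l, l ∈ S i ↔ rename σ τ π l ∈ S (π i)

lemma rename_mul (σ σ' : Perm (Fin (n + 1))) (τ τ' : Perm (Fin n)) (π π' : Perm (Fin m))
    (l : Var n m × Bool) :
    rename (σ * σ') (τ * τ') (π * π') l = rename σ τ π (rename σ' τ' π' l) := by
  obtain ⟨x | x, b⟩ := l
  · rfl
  · rfl

lemma rename_one (l : Var n m × Bool) :
    rename (1 : Perm (Fin (n + 1))) (1 : Perm (Fin n)) (1 : Perm (Fin m)) l = l := by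
  obtain ⟨x | x, b⟩ := l
  · rfl
  · rfl

lemma Aut.one : Aut S 1 1 1 := by
  intro i l
  rw [rename_one]
  rfl

lemma Aut.mul {σ σ' : Perm (Fin (n + 1))} {τ τ' : Perm (Fin n)} {π π' : Perm (Fin m)}
    (h : Aut S σ τ π) (h' : Aut S σ' τ' π') : Aut S (σ * σ') (τ * τ') (π * π') := by
  intro i l
  rw [rename_mul, h' i l, h (π' i) _]
  rfl

lemma Aut.inv {σ : Perm (Fin (n + 1))} {τ : Perm (Fin n)} {π : Perm (Fin m)}
    (h : Aut S σ τ π) : Aut S σ⁻¹ τ⁻¹ π⁻¹ := by
  intro i l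
  rw [h (π⁻¹ i) (rename σ⁻¹ τ⁻¹ π⁻¹ l), ← rename_mul]
  simp only [mul_inv_cancel, rename_one, apply_inv']

/-! ### Restrictions and renamings of sets of edges -/

/-- The part of a set of edges that touches `V`. -/
noncomputable def restr (V : Finset (Vx n)) (M : Finset (Edge n)) : Finset (Edge n) :=
  M.filter fun e => ∃ v ∈ V, inc e v

lemma mem_restr {V : Finset (Vx n)} {M : Finset (Edge n)} {e : Edge n} :
    e ∈ restr V M ↔ e ∈ M ∧ ∃ v ∈ V, inc e v := by simp [restr]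

lemma restr_subset (V : Finset (Vx n)) (M : Finset (Edge n)) : restr V M ⊆ M := filter_subset _ _

/-- All vertices in `V` are covered. -/
def Cvr (V : Finset (Vx n)) (M : Finset (Edge n)) : Prop := ∀ v ∈ V, Cov M v

lemma Cvr.mono {V : Finset (Vx n)} {M M' : Finset (Edge n)} (h : Cvr V M) (hs : M ⊆ M') :
    Cvr V M' := by
  intro v hv
  obtain ⟨e, he, hev⟩ := h v hv
  exact ⟨e, hs he, hev⟩

lemma restr_eq {V : Finset (Vx n)} {M M' : Finset (Edge n)} (hM' : IsM M') (hs : M ⊆ M')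
    (hc : Cvr V M) : restr V M' = restr V M := by
  ext e
  rw [mem_restr, mem_restr]
  constructor
  · rintro ⟨he, v, hv, hev⟩
    obtain ⟨f, hf, hfv⟩ := hc v hv
    have : e = f := hM'.eq_of_inc he (hs hf) hev hfv
    exact ⟨this ▸ hf, v, hv, hev⟩
  · rintro ⟨he, h⟩
    exact ⟨hs he, h⟩

lemma card_restr {V : Finset (Vx n)} {M : Finset (Edge n)} (hM : IsM M) :
    (restr V M).card ≤ V.card := by
  have hex : ∀ e : {e // e ∈ restr V M}, ∃ v ∈ V, inc e.1 v := fun e => (mem_restr.1 e.2).2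
  choose g hg1 hg2 using hex
  have hinj : Function.Injective fun e => (⟨g e, hg1 e⟩ : {v // v ∈ V}) := by
    intro e f hef
    have h1 : g e = g f := congrArg Subtype.val hef
    apply Subtype.ext
    exact hM.eq_of_inc (mem_restr.1 e.2).1 (mem_restr.1 f.2).1 (h1 ▸ hg2 e) (hg2 f)
  have := Fintype.card_le_of_injective _ hinj
  simpa using this

lemma map_map_inv (σ : Perm (Fin (n + 1))) (τ : Perm (Fin n)) (e : Edge n) :
    Prod.map σ τ (Prod.map ⇑(σ⁻¹) ⇑(τ⁻¹) e) = e :=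
  Prod.ext (apply_inv' _ _) (apply_inv' _ _)

lemma vmap_map_inv (σ : Perm (Fin (n + 1))) (τ : Perm (Fin n)) (v : Vx n) :
    Sum.map σ τ (Sum.map ⇑(σ⁻¹) ⇑(τ⁻¹) v) = v := by
  cases v with
  | inl p => exact congrArg Sum.inl (apply_inv' _ _)
  | inr p => exact congrArg Sum.inr (apply_inv' _ _)

/-- The renaming of a set of edges. -/
def act (σ : Perm (Fin (n + 1))) (τ : Perm (Fin n)) (M : Finset (Edge n)) : Finset (Edge n) :=
  M.image (Prod.map σ τ)

lemma mem_act {σ : Perm (Fin (n + 1))} {τ : Perm (Fin n)} {M : Finset (Edge n)} {e : Edge n} :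
    Prod.map σ τ e ∈ act σ τ M ↔ e ∈ M := by
  unfold act
  rw [mem_image]
  constructor
  · rintro ⟨f, hf, hfe⟩
    have : f = e := (σ.injective.prodMap τ.injective) hfe
    exact this ▸ hf
  · intro h
    exact ⟨e, h, rfl⟩

lemma exists_of_mem_act {σ : Perm (Fin (n + 1))} {τ : Perm (Fin n)} {M : Finset (Edge n)}
    {e : Edge n} (h : e ∈ act σ τ M) : ∃ f ∈ M, Prod.map σ τ f = e := mem_image.1 h

lemma act_act_inv (σ : Perm (Fin (n + 1))) (τ : Perm (Fin n)) (M : Finset (Edge n)) :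
    act σ τ (act σ⁻¹ τ⁻¹ M) = M := by
  ext e
  constructor
  · intro h
    obtain ⟨f, hf, rfl⟩ := exists_of_mem_act h
    obtain ⟨g, hg, rfl⟩ := exists_of_mem_act hf
    rw [map_map_inv]
    exact hg
  · intro h
    have h1 : Prod.map ⇑(σ⁻¹) ⇑(τ⁻¹) e ∈ act σ⁻¹ τ⁻¹ M := mem_act.2 h
    have h2 : Prod.map σ τ (Prod.map ⇑(σ⁻¹) ⇑(τ⁻¹) e) ∈ act σ τ (act σ⁻¹ τ⁻¹ M) := mem_act.2 h1
    rwa [map_map_inv] at h2

lemma inc_map {σ : Perm (Fin (n + 1))} {τ : Perm (Fin n)} {e : Edge n} {v : Vx n} :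
    inc (Prod.map σ τ e) (Sum.map σ τ v) ↔ inc e v := by
  cases v with
  | inl p => simp [inc]
  | inr h => simp [inc]

lemma isM_act {σ : Perm (Fin (n + 1))} {τ : Perm (Fin n)} {M : Finset (Edge n)} :
    IsM (act σ τ M) ↔ IsM M := by
  constructor
  · intro h e he f hf hef
    have := h _ (mem_act.2 he) _ (mem_act.2 hf) (by simpa using hef)
    exact (σ.injective.prodMap τ.injective) this
  · intro h e he f hf hef
    obtain ⟨e', he', rfl⟩ := exists_of_mem_act he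
    obtain ⟨f', hf', rfl⟩ := exists_of_mem_act hf
    rw [h e' he' f' hf' (by simpa using hef)]

lemma cov_act {σ : Perm (Fin (n + 1))} {τ : Perm (Fin n)} {M : Finset (Edge n)} {v : Vx n} :
    Cov (act σ τ M) (Sum.map σ τ v) ↔ Cov M v := by
  constructor
  · rintro ⟨e, he, hev⟩
    obtain ⟨e', he', rfl⟩ := exists_of_mem_act he
    exact ⟨e', he', inc_map.1 hev⟩
  · rintro ⟨e, he, hev⟩
    exact ⟨_, mem_act.2 he, inc_map.2 hev⟩

lemma cvr_act {σ : Perm (Fin (n + 1))} {τ : Perm (Fin n)} {M : Finset (Edge n)}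
    {V V' : Finset (Vx n)} (hV : ∀ v, Sum.map σ τ v ∈ V' ↔ v ∈ V) :
    Cvr V' (act σ τ M) ↔ Cvr V M := by
  constructor
  · intro h v hv
    exact cov_act.1 (h _ ((hV v).2 hv))
  · intro h v hv
    rw [← vmap_map_inv σ τ v] at hv ⊢
    exact cov_act.2 (h _ ((hV _).1 hv))

lemma restr_act {σ : Perm (Fin (n + 1))} {τ : Perm (Fin n)} {M : Finset (Edge n)}
    {V V' : Finset (Vx n)} (hV : ∀ v, Sum.map σ τ v ∈ V' ↔ v ∈ V) :
    restr V' (act σ τ M) = act σ τ (restr V M) := by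
  ext e
  rw [mem_restr]
  constructor
  · rintro ⟨he, v, hv, hev⟩
    obtain ⟨e', he', rfl⟩ := exists_of_mem_act he
    rw [← vmap_map_inv σ τ v] at hv hev
    exact mem_act.2 (mem_restr.2 ⟨he', _, (hV _).1 hv, inc_map.1 hev⟩)
  · intro h
    obtain ⟨e', he', rfl⟩ := exists_of_mem_act h
    obtain ⟨h1, v, hv, hev⟩ := mem_restr.1 he'
    exact ⟨mem_act.2 h1, _, (hV v).2 hv, inc_map.2 hev⟩

lemma act_subset {σ : Perm (Fin (n + 1))} {τ : Perm (Fin n)} {M M' : Finset (Edge n)} :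
    act σ τ M ⊆ act σ τ M' ↔ M ⊆ M' := by
  constructor
  · intro h e he
    exact mem_act.1 (h (mem_act.2 he))
  · intro h e he
    obtain ⟨e', he', rfl⟩ := exists_of_mem_act he
    exact mem_act.2 (h he')

lemma card_act_sdiff {σ : Perm (Fin (n + 1))} {τ : Perm (Fin n)} {M M' : Finset (Edge n)} :
    (act σ τ M \ act σ τ M').card = (M \ M').card := by
  have : act σ τ M \ act σ τ M' = act σ τ (M \ M') := by
    ext e
    rw [mem_sdiff]
    constructor
    · rintro ⟨h1, h2⟩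
      obtain ⟨e', he', rfl⟩ := exists_of_mem_act h1
      exact mem_act.2 (mem_sdiff.2 ⟨he', fun h => h2 (mem_act.2 h)⟩)
    · intro h
      obtain ⟨e', he', rfl⟩ := exists_of_mem_act h
      obtain ⟨h1, h2⟩ := mem_sdiff.1 he'
      exact ⟨mem_act.2 h1, fun h => h2 (mem_act.1 h)⟩
  rw [this]
  exact card_image_of_injective _ (σ.injective.prodMap τ.injective)

/-! ### Truth values -/

/-- The data that determine the truth values: the circuit, a matching that is kept fixed, the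
supports of the extension variables, and the vertex that decides an edge. -/
structure Ctx (n m : ℕ) where
  /-- the circuit -/
  S : Fin m → Finset (Var n m × Bool)
  /-- the fixed matching -/
  ρ₀ : Finset (Edge n)
  /-- the supports -/
  W : Fin m → Finset (Vx n)
  /-- the deciding vertex of an edge -/
  wv : Edge n → Vx n

variable {c : Ctx n m}

/-- The vertices which decide a variable. -/
def Ctx.Wv (c : Ctx n m) : Var n m → Finset (Vx n)
  | .inl e => {c.wv e}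
  | .inr j => c.W j

/-- The truth value of the extension variable `i` on a matching which covers its support: some
literal of its definition is true on some matching that agrees on the support of `i` and covers
the support of the literal. -/
noncomputable def val (c : Ctx n m) (i : Fin m) (M : Finset (Edge n)) : Prop :=
  ∃ l ∈ c.S i, ∃ M', IsM M' ∧ c.ρ₀ ⊆ M' ∧ restr (c.W i) M ⊆ M' ∧ Cvr (c.Wv l.1) M' ∧
    match l.1 with
    | .inl e => (l.2 = true ↔ e ∈ M')
    | .inr j => ∃ _ : j < i, (l.2 = true ↔ val c j M')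
  termination_by i

/-- The truth value of a literal. -/
def lval (c : Ctx n m) (M : Finset (Edge n)) (l : Var n m × Bool) : Prop :=
  match l.1 with
  | .inl e => (l.2 = true ↔ e ∈ M)
  | .inr j => (l.2 = true ↔ val c j M)

/-- Acyclicity. -/
def Acyc (S : Fin m → Finset (Var n m × Bool)) : Prop :=
  ∀ i j b, (Sum.inr j, b) ∈ S i → j < i

lemma val_iff (hA : Acyc c.S) (i : Fin m) (M : Finset (Edge n)) :
    val c i M ↔ ∃ l ∈ c.S i, ∃ M', IsM M' ∧ c.ρ₀ ⊆ M' ∧ restr (c.W i) M ⊆ M' ∧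
      Cvr (c.Wv l.1) M' ∧ lval c M' l := by
  rw [val]
  apply exists_congr
  rintro ⟨x, b⟩
  apply and_congr_right
  intro hl
  apply exists_congr
  intro M'
  refine and_congr_right fun _ => and_congr_right fun _ => and_congr_right fun _ =>
    and_congr_right fun _ => ?_
  cases x with
  | inl e => exact Iff.rfl
  | inr j =>
    have := hA i j b hl
    simp [lval, this]

lemma val_congr (hA : Acyc c.S) {i : Fin m} {M M' : Finset (Edge n)}
    (h : restr (c.W i) M = restr (c.W i) M') : val c i M ↔ val c i M' := by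
  rw [val_iff hA, val_iff hA, h]

lemma val_mono (hA : Acyc c.S) {i : Fin m} {M M' : Finset (Edge n)} (hM' : IsM M') (hs : M ⊆ M')
    (hc : Cvr (c.W i) M) : val c i M ↔ val c i M' :=
  val_congr hA (restr_eq hM' hs hc).symm

/-- What is needed of the data. -/
structure Ctx.Ok (c : Ctx n m) : Prop where
  acyc : Acyc c.S
  inc_wv : ∀ e, inc e (c.wv e)
  wv_map : ∀ (σ : Perm (Fin (n + 1))) (τ : Perm (Fin n)) (e : Edge n),
    c.wv (Prod.map σ τ e) = Sum.map σ τ (c.wv e)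

lemma lval_mono (hc : c.Ok) {l : Var n m × Bool} {M M' : Finset (Edge n)} (hM' : IsM M')
    (hs : M ⊆ M') (hcv : Cvr (c.Wv l.1) M) : lval c M l ↔ lval c M' l := by
  obtain ⟨x, b⟩ := l
  cases x with
  | inl e =>
    have h1 : e ∈ M ↔ e ∈ M' := by
      refine ⟨fun h => hs h, fun h => ?_⟩
      obtain ⟨f, hf, hfe⟩ := hcv (c.wv e) (by simp [Ctx.Wv])
      have : e = f := hM'.eq_of_inc h (hs hf) (hc.inc_wv e) hfe
      exact this ▸ hf
    simp only [lval, h1]
  | inr j =>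
    have h1 : val c j M ↔ val c j M' := val_mono hc.acyc hM' hs hcv
    simp only [lval, h1]

/-! ### Invariance -/

/-- An automorphism compatible with the data. -/
def Ctx.Adm (c : Ctx n m) (σ : Perm (Fin (n + 1))) (τ : Perm (Fin n)) (π : Perm (Fin m)) :
    Prop :=
  Aut c.S σ τ π ∧ act σ τ c.ρ₀ = c.ρ₀ ∧ ∀ j v, Sum.map σ τ v ∈ c.W (π j) ↔ v ∈ c.W j

lemma Wv_adm (hc : c.Ok) {σ : Perm (Fin (n + 1))} {τ : Perm (Fin n)} {π : Perm (Fin m)}
    (h : c.Adm σ τ π) (x : Var n m) (v : Vx n) :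
    Sum.map σ τ v ∈ c.Wv (Sum.map (Prod.map σ τ) π x) ↔ v ∈ c.Wv x := by
  cases x with
  | inl e =>
    simp only [Ctx.Wv, Sum.map_inl, mem_singleton, hc.wv_map]
    constructor
    · intro h1
      exact (σ.injective.sumMap τ.injective) h1
    · rintro rfl; rfl
  | inr j => exact h.2.2 j v

theorem val_adm (hc : c.Ok) {σ : Perm (Fin (n + 1))} {τ : Perm (Fin n)} {π : Perm (Fin m)}
    (h : c.Adm σ τ π) (i : Fin m) : ∀ M : Finset (Edge n),
      val c (π i) (act σ τ M) ↔ val c i M := by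
  induction i using WellFoundedLT.induction with
  | _ i ih =>
  have hl : ∀ l ∈ c.S i, ∀ M, lval c (act σ τ M) (rename σ τ π l) ↔ lval c M l := by
    rintro ⟨x, b⟩ hx M
    cases x with
    | inl e => simp only [lval, rename, Sum.map_inl, mem_act]
    | inr j => simp only [lval, rename, Sum.map_inr, ih j (hc.acyc i j b hx) M]
  have hρ : ∀ M', c.ρ₀ ⊆ act σ τ M' ↔ c.ρ₀ ⊆ M' := by
    intro M'
    rw [← h.2.1, act_subset, h.2.1]
  intro M
  rw [val_iff hc.acyc, val_iff hc.acyc]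
  constructor
  · rintro ⟨l, hl1, M', h1, h0, h2, h3, h4⟩
    obtain ⟨l, rfl⟩ : ∃ l', rename σ τ π l' = l := by
      refine ⟨rename σ⁻¹ τ⁻¹ π⁻¹ l, ?_⟩
      rw [← rename_mul]
      simp only [mul_inv_cancel, rename_one]
    obtain ⟨M', rfl⟩ : ∃ M'', act σ τ M'' = M' := ⟨_, act_act_inv σ τ M'⟩
    have hlS : l ∈ c.S i := (h.1 i l).2 hl1
    refine ⟨l, hlS, M', isM_act.1 h1, (hρ M').1 h0, ?_, (cvr_act (Wv_adm hc h l.1)).1 h3,
      (hl l hlS M').1 h4⟩
    rw [restr_act (h.2.2 i), act_subset] at h2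
    exact h2
  · rintro ⟨l, hl1, M', h1, h0, h2, h3, h4⟩
    refine ⟨rename σ τ π l, (h.1 i l).1 hl1, act σ τ M', isM_act.2 h1, (hρ M').2 h0, ?_,
      (cvr_act (Wv_adm hc h l.1)).2 h3, (hl l hl1 M').2 h4⟩
    rw [restr_act (h.2.2 i), act_subset]
    exact h2

lemma lval_adm (hc : c.Ok) {σ : Perm (Fin (n + 1))} {τ : Perm (Fin n)} {π : Perm (Fin m)}
    (h : c.Adm σ τ π) (l : Var n m × Bool) (M : Finset (Edge n)) :
    lval c (act σ τ M) (rename σ τ π l) ↔ lval c M l := by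
  obtain ⟨x, b⟩ := l
  cases x with
  | inl e => simp only [lval, rename, Sum.map_inl, mem_act]
  | inr j => simp only [lval, rename, Sum.map_inr, val_adm hc h j M]

/-! ### The main lemma on truth values -/

/-- Edges can be moved into `R'` by automorphisms that fix the extension variable `i`; `ov e` is
the endpoint of `e` which is not moved. -/
def Ctx.Movable (c : Ctx n m) (ov : Edge n → Vx n) (w : ℕ) : Prop :=
  ∀ (i : Fin m) (M R' : Finset (Edge n)), IsM M → IsM R' → c.ρ₀ ⊆ M → c.ρ₀ ⊆ R' →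
    (M \ c.ρ₀).card ≤ 2 * w → (∀ v ∈ c.W i, ∃ e ∈ M, e ∈ R' ∧ inc e v) →
    (∀ e ∈ M, Cov R' (ov e)) → ¬ M ⊆ R' →
    ∃ σ τ π, c.Adm σ τ π ∧ π i = i ∧ (act σ τ M \ R').card < (M \ R').card ∧
      (∀ e ∈ M, (∃ v ∈ c.W i, inc e v) → Prod.map σ τ e = e) ∧
      ∀ e ∈ act σ τ M, Cov R' (ov e)

lemma exists_cover_edges {ov : Edge n → Vx n} (E : Finset (Edge n)) {R : Finset (Edge n)}
    (hR : IsM R) (hcard : R.card + E.card ≤ n) :
    ∃ R', R ⊆ R' ∧ IsM R' ∧ R'.card ≤ R.card + E.card ∧ ∀ e ∈ E, Cov R' (ov e) := by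
  induction E using Finset.induction_on with
  | empty => exact ⟨R, subset_rfl, hR, by simp, by simp⟩
  | insert a E ha ih =>
    rw [card_insert_of_notMem ha] at hcard
    obtain ⟨R', h1, h2, h3, h4⟩ := ih (by omega)
    obtain ⟨e, he, hM⟩ := exists_extend h2 (by omega) (ov a)
    refine ⟨insert e R', h1.trans (subset_insert _ _), hM, ?_, ?_⟩
    · rw [card_insert_of_notMem ha]
      have := card_insert_le e R'
      omega
    · intro b hb
      rcases mem_insert.1 hb with rfl | hb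
      · exact ⟨e, mem_insert_self _ _, he⟩
      · obtain ⟨f, hf, hfv⟩ := h4 b hb
        exact ⟨f, mem_insert_of_mem hf, hfv⟩

/-- A true extension variable has a true literal, after a small extension of the matching. -/
theorem exists_true_literal (hc : c.Ok) {w : ℕ} (hw : 1 ≤ w) (hW : ∀ i, (c.W i).card ≤ w)
    {ov : Edge n → Vx n} (hov : ∀ e, inc e (ov e)) (hmov : c.Movable ov w)
    {i : Fin m} {R : Finset (Edge n)} (hR : IsM R) (hρ : c.ρ₀ ⊆ R) (hcv : Cvr (c.W i) R)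
    (hcard : R.card + 2 * w ≤ n) (hv : val c i R) :
    ∃ R', R ⊆ R' ∧ IsM R' ∧ R'.card ≤ R.card + 2 * w ∧
      ∃ l ∈ c.S i, Cvr (c.Wv l.1) R' ∧ lval c R' l := by
  obtain ⟨l, hl, M', h1, h0, h2, h3, h4⟩ := (val_iff hc.acyc i R).1 hv
  obtain ⟨K, hK⟩ : ∃ K, K = restr (c.W i) R := ⟨_, rfl⟩
  rw [← hK] at h2
  have hKR : K ⊆ R := by rw [hK]; exact restr_subset _ _
  -- shrink the witness
  obtain ⟨M₁, hM₁⟩ : ∃ M₁, M₁ = c.ρ₀ ∪ restr (c.W i ∪ c.Wv l.1) M' := ⟨_, rfl⟩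
  have hM₁s : M₁ ⊆ M' := by rw [hM₁]; exact union_subset h0 (restr_subset _ _)
  have hcov : Cvr (c.Wv l.1) M₁ := by
    intro v hv
    obtain ⟨e, he, hev⟩ := h3 v hv
    refine ⟨e, ?_, hev⟩
    rw [hM₁]
    exact mem_union_right _ (mem_restr.2 ⟨he, v, mem_union_right _ hv, hev⟩)
  have hWv : (c.Wv l.1).card ≤ w := by
    cases l.1 with
    | inl e => simpa [Ctx.Wv] using hw
    | inr j => exact hW j
  have hcM₁ : (M₁ \ c.ρ₀).card ≤ 2 * w := by
    have h5 : M₁ \ c.ρ₀ ⊆ restr (c.W i ∪ c.Wv l.1) M' := by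
      intro e he
      rw [mem_sdiff, hM₁, mem_union] at he
      exact he.1.resolve_left he.2
    have h8 := card_restr (V := c.W i ∪ c.Wv l.1) h1
    have h9 := card_union_le (c.W i) (c.Wv l.1)
    have h10 := hW i
    have h11 := card_le_card h5
    omega
  have hKM₁ : K ⊆ M₁ := by
    intro e he
    rw [hM₁]
    have h8 := he
    rw [hK] at h8
    obtain ⟨_, v, hv, hev⟩ := mem_restr.1 h8
    exact mem_union_right _ (mem_restr.2 ⟨h2 he, v, mem_union_left _ hv, hev⟩)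
  -- extend R
  obtain ⟨R', hRR', hR', hcR', hRcov⟩ := exists_cover_edges (ov := ov) (M₁ \ c.ρ₀) hR (by omega)
  refine ⟨R', hRR', hR', by omega, ?_⟩
  have hcov' : ∀ e ∈ M₁, Cov R' (ov e) := by
    intro e he
    by_cases heρ : e ∈ c.ρ₀
    · exact ⟨e, hRR' (hρ heρ), hov e⟩
    · exact hRcov e (mem_sdiff.2 ⟨he, heρ⟩)
  have hKc : ∀ v ∈ c.W i, ∃ e ∈ K, inc e v := by
    intro v hv
    obtain ⟨e, he, hev⟩ := hcv v hv
    exact ⟨e, by rw [hK]; exact mem_restr.2 ⟨he, v, hv, hev⟩, hev⟩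
  -- the inductive claim
  have claim : ∀ t : ℕ, ∀ l ∈ c.S i, ∀ M₁ : Finset (Edge n), IsM M₁ → c.ρ₀ ⊆ M₁ → K ⊆ M₁ →
      (M₁ \ c.ρ₀).card ≤ 2 * w → Cvr (c.Wv l.1) M₁ → lval c M₁ l →
      (∀ e ∈ M₁, Cov R' (ov e)) → (M₁ \ R').card = t →
      ∃ l' ∈ c.S i, ∃ M₂ ⊆ R', Cvr (c.Wv l'.1) M₂ ∧ lval c M₂ l' := by
    intro t
    induction t using Nat.strong_induction_on with
    | _ t ih =>
    intro l hl M₁ g1 g2 g3 g4 g5 g6 g7 g8
    by_cases hsub : M₁ ⊆ R'
    · exact ⟨l, hl, M₁, hsub, g5, g6⟩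
    obtain ⟨σ, τ, π, ha, hπ, hlt, hfix, hcov2⟩ := hmov i M₁ R' g1 hR' g2 (hρ.trans hRR') g4
      (fun v hv => by
        obtain ⟨e, he, hev⟩ := hKc v hv
        exact ⟨e, g3 he, hRR' (hKR he), hev⟩) g7 hsub
    have hρact : act σ τ c.ρ₀ = c.ρ₀ := ha.2.1
    refine ih _ (by rw [← g8]; exact hlt) (rename σ τ π l) ?_ (act σ τ M₁) (isM_act.2 g1) ?_ ?_ ?_
      ((cvr_act (Wv_adm hc ha l.1)).2 g5) ((lval_adm hc ha l M₁).2 g6) hcov2 rfl
    · have := (ha.1 i l).1 hl
      rwa [hπ] at this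
    · rw [← hρact, act_subset]; exact g2
    · intro e he
      have h8 := he
      rw [hK] at h8
      obtain ⟨_, v, hv, hev⟩ := mem_restr.1 h8
      rw [← hfix e (g3 he) ⟨v, hv, hev⟩]
      exact mem_act.2 (g3 he)
    · have h12 : (act σ τ M₁ \ act σ τ c.ρ₀).card = (M₁ \ c.ρ₀).card := card_act_sdiff
      rw [hρact] at h12
      omega
  obtain ⟨l', hl', M₂, h5, h6, h7⟩ := claim _ l hl M₁ (h1.mono hM₁s)
    (by rw [hM₁]; exact subset_union_left) hKM₁ hcM₁ hcov
    ((lval_mono hc h1 hM₁s hcov).2 h4) hcov' rfl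
  exact ⟨l', hl', h6.mono h5, (lval_mono hc hR' h5 h6).1 h7⟩

/-- Conversely, a true literal makes the extension variable true. -/
lemma val_of_literal (hc : c.Ok) {i : Fin m} {R : Finset (Edge n)} (hR : IsM R) (hρ : c.ρ₀ ⊆ R)
    {l : Var n m × Bool} (hl : l ∈ c.S i) (hcv : Cvr (c.Wv l.1) R) (hv : lval c R l) :
    val c i R :=
  (val_iff hc.acyc i R).2 ⟨l, hl, R, hR, hρ, restr_subset _ _, hcv, hv⟩

end Pool.Agent.Lib.MP_e81270_lc_Sym
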