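import Pool.Agent.Lib.MP_e81270_lc_Sym.Force

/-!
# Symmetry in the holes and symmetry in the pigeons
-/

set_option autoImplicit false

namespace Pool.Agent.Lib.MP_e81270_lc_Sym

open Pool.Agent.Lib.MP_e81270_lc_LocalExt Classical Finset Equiv

/-! ### 3-cycles on a subset -/

section Lift

variable {α : Type*} [DecidableEq α] {H : Finset α}

lemma lift_a {a b c : {x // x ∈ H}} (hab : a ≠ b) (hac : a ≠ c) :
    Perm.ofSubtype (cyc a b c) a.1 = b.1 := by
  rw [Perm.ofSubtype_apply_coe, cyc_a hab hac]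

lemma lift_of_ne {a b c : {x // x ∈ H}} {y : α} (h1 : y ≠ a.1) (h2 : y ≠ b.1) (h3 : y ≠ c.1) :
    Perm.ofSubtype (cyc a b c) y = y := by
  by_cases hy : y ∈ H
  · rw [Perm.ofSubtype_apply_of_mem _ hy, cyc_of_ne]
    · intro h; exact h1 (congrArg Subtype.val h)
    · intro h; exact h2 (congrArg Subtype.val h)
    · intro h; exact h3 (congrArg Subtype.val h)
  · exact Perm.ofSubtype_apply_of_not_mem _ hy

end Lift

variable {n m : ℕ}

/-! ### Holes -/

section Holes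

variable {S : Fin m → Finset (Var n m × Bool)} {H : Finset (Fin n)}

/-- The permutations of `H` which extend to an automorphism fixing `i`. -/
def HH (S : Fin m → Finset (Var n m × Bool)) (H : Finset (Fin n)) (i : Fin m) :
    Subgroup (Perm {h // h ∈ H}) where
  carrier := {τ | ∃ π, Aut S 1 (Perm.ofSubtype τ) π ∧ π i = i}
  mul_mem' := by
    rintro a b ⟨π, h1, h2⟩ ⟨π', h3, h4⟩
    refine ⟨π * π', by simpa using h1.mul h3, ?_⟩
    rw [Perm.mul_apply, h4, h2]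
  one_mem' := ⟨1, by simpa using Aut.one, rfl⟩
  inv_mem' := by
    rintro a ⟨π, h1, h2⟩
    refine ⟨π⁻¹, by simpa using h1.inv, ?_⟩
    rw [Perm.inv_eq_iff_eq]; exact h2.symm

lemma mem_HH {i : Fin m} {τ : Perm {h // h ∈ H}} :
    τ ∈ HH S H i ↔ ∃ π, Aut S 1 (Perm.ofSubtype τ) π ∧ π i = i := Iff.rfl

lemma HH_conj {τ : Perm {h // h ∈ H}} {π : Perm (Fin m)}
    (h : Aut S 1 (Perm.ofSubtype τ) π) (i : Fin m) :
    ∀ x ∈ HH S H i, τ * x * τ⁻¹ ∈ HH S H (π i) := by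
  rintro x ⟨π', h1, h2⟩
  refine ⟨π * π' * π⁻¹, by simpa using (h.mul h1).mul h.inv, ?_⟩
  rw [Perm.mul_apply, Perm.mul_apply, inv_apply', h2]

lemma HH_conj' {τ : Perm {h // h ∈ H}} {π : Perm (Fin m)}
    (h : Aut S 1 (Perm.ofSubtype τ) π) (i : Fin m) :
    ∀ x ∈ HH S H (π i), τ⁻¹ * x * τ ∈ HH S H i := by
  intro x hx
  have h0 : Aut S 1 (Perm.ofSubtype τ⁻¹) π⁻¹ := by simpa using h.inv
  have := HH_conj h0 (π i) x hx
  rwa [inv_apply', inv_inv] at this

lemma index_HH (hS : HoleSymmetric S H) (i : Fin m) :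
    Nat.card (Perm {h // h ∈ H} ⧸ HH S H i) ≤ m := by
  have hex : ∀ τ : Perm {h // h ∈ H}, ∃ π, Aut S 1 (Perm.ofSubtype τ) π := fun τ =>
    hS _ fun h hh => Perm.ofSubtype_apply_of_not_mem _ hh
  choose φ hφ using hex
  have hinj : Function.Injective fun q : Perm {h // h ∈ H} ⧸ HH S H i => φ q.out i := by
    intro q q' hq
    have h1 : (φ q.out)⁻¹ (φ q'.out i) = i := by
      rw [Perm.inv_eq_iff_eq]; exact hq.symm
    have h2 : q.out⁻¹ * q'.out ∈ HH S H i :=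
      ⟨(φ q.out)⁻¹ * φ q'.out, by simpa using (hφ q.out).inv.mul (hφ q'.out), h1⟩
    have h3 := QuotientGroup.eq.2 h2
    rwa [QuotientGroup.out_eq', QuotientGroup.out_eq'] at h3
  have := Nat.card_le_card_of_injective _ hinj
  rwa [Nat.card_eq_fintype_card (α := Fin m), Fintype.card_fin] at this

/-- The data for symmetry in the holes. -/
noncomputable def holeCtx (S : Fin m → Finset (Var n m × Bool)) (H : Finset (Fin n))
    (ρ₀ : Finset (Edge n)) : Ctx n m where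
  S := S
  ρ₀ := ρ₀
  W := fun i => (outer (HH S H i)).image fun h => Sum.inr h.1
  wv := fun e => Sum.inr e.2

lemma holeCtx_ok (hA : Acyc S) (ρ₀ : Finset (Edge n)) : (holeCtx S H ρ₀).Ok where
  acyc := hA
  inc_wv := fun _ => rfl
  wv_map := fun _ _ _ => rfl

lemma mem_hole_W {ρ₀ : Finset (Edge n)} {i : Fin m} {v : Vx n} :
    v ∈ (holeCtx S H ρ₀).W i ↔ ∃ h ∈ outer (HH S H i), Sum.inr h.1 = v := by
  simp only [holeCtx, mem_image]

lemma hole_adm {ρ₀ : Finset (Edge n)} (hρ : ∀ e ∈ ρ₀, e.2 ∉ H) {τ : Perm {h // h ∈ H}}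
    {π : Perm (Fin m)} (h : Aut S 1 (Perm.ofSubtype τ) π) :
    (holeCtx S H ρ₀).Adm 1 (Perm.ofSubtype τ) π := by
  refine ⟨h, ?_, ?_⟩
  · have hfix : ∀ e ∈ ρ₀, Prod.map ⇑(1 : Perm (Fin (n + 1))) ⇑(Perm.ofSubtype τ) e = e := by
      intro e he
      exact Prod.ext rfl (Perm.ofSubtype_apply_of_not_mem _ (hρ e he))
    change act 1 (Perm.ofSubtype τ) ρ₀ = ρ₀
    ext e
    constructor
    · intro he
      obtain ⟨f, hf, rfl⟩ := exists_of_mem_act he
      rw [hfix f hf]; exact hf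
    · intro he
      rw [← hfix e he]
      exact mem_act.2 he
  · intro j v
    have h1 := outer_conj (HH_conj h j) (HH_conj' h j)
    rw [mem_hole_W, mem_hole_W]
    cases v with
    | inl p => simp
    | inr q =>
      constructor
      · rintro ⟨x, hx, hxq⟩
        rw [h1] at hx
        obtain ⟨y, hy, rfl⟩ := mem_image.1 hx
        refine ⟨y, hy, ?_⟩
        rw [Sum.map_inr, Sum.inr.injEq, ← Perm.ofSubtype_apply_coe] at hxq
        rw [(Perm.ofSubtype τ).injective hxq]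
      · rintro ⟨y, hy, hyq⟩
        rw [Sum.inr.injEq] at hyq
        refine ⟨τ y, by rw [h1]; exact mem_image_of_mem _ hy, ?_⟩
        rw [Sum.map_inr, ← hyq, Perm.ofSubtype_apply_coe]

theorem hole_movable {ρ₀ : Finset (Edge n)} (hρ1 : ∀ e ∈ ρ₀, e.2 ∉ H)
    (hρ2 : ∀ h ∉ H, ∃ e ∈ ρ₀, e.2 = h) {w : ℕ}
    (hW : ∀ i, ((holeCtx S H ρ₀).W i).card ≤ w) (hw : 3 * w + 2 ≤ H.card) :
    (holeCtx S H ρ₀).Movable (fun e => Sum.inl e.1) w := by
  intro i M R' hM hR' hρM hρR hc hWc hcov hnot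
  have hρM' : ρ₀ ⊆ M := hρM
  have hρR' : ρ₀ ⊆ R' := hρR
  have hc' : (M \ ρ₀).card ≤ 2 * w := hc
  obtain ⟨e, heM, heR⟩ := not_subset.1 hnot
  obtain ⟨f, hfR, hfe⟩ := hcov e heM
  have hfe' : f.1 = e.1 := hfe
  have heρ : e ∉ ρ₀ := fun h => heR (hρR' h)
  have hfM : f ∉ M := by
    intro h
    have : e = f := hM e heM f h (Or.inl hfe'.symm)
    exact heR (this ▸ hfR)
  have hfρ : f ∉ ρ₀ := fun h => hfM (hρM' h)
  have hne : e.2 ≠ f.2 := by
    intro h
    have : e = f := Prod.ext hfe'.symm h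
    exact heR (this ▸ hfR)
  have heH : e.2 ∈ H := by
    by_contra h
    obtain ⟨g, hg, hge⟩ := hρ2 _ h
    have : g = e := hM g (hρM' hg) e heM (Or.inr hge)
    exact heρ (this ▸ hg)
  have hfH : f.2 ∈ H := by
    by_contra h
    obtain ⟨g, hg, hge⟩ := hρ2 _ h
    have : g = f := hR' g (hρR' hg) f hfR (Or.inr hge)
    exact hfρ (this ▸ hg)
  -- a spare hole
  obtain ⟨x, hxH, hxM, hxf, hxW⟩ : ∃ x ∈ H, (∀ g ∈ M, g.2 ≠ x) ∧ x ≠ f.2 ∧
      Sum.inr x ∉ (holeCtx S H ρ₀).W i := by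
    by_contra hcon
    push Not at hcon
    have hsub : H ⊆ ((M \ ρ₀).image Prod.snd ∪ {f.2}) ∪
        ((outer (HH S H i)).image fun h => h.1) := by
      intro y hy
      by_cases h1 : ∀ g ∈ M, g.2 ≠ y
      · by_cases h2 : y = f.2
        · exact mem_union_left _ (mem_union_right _ (by simp [h2]))
        · obtain ⟨z, hz, hzy⟩ := mem_hole_W.1 (hcon y hy h1 h2)
          exact mem_union_right _ (mem_image.2 ⟨z, hz, Sum.inr.inj hzy⟩)
      · push Not at h1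
        obtain ⟨g, hg, hgy⟩ := h1
        refine mem_union_left _ (mem_union_left _ (mem_image.2 ⟨g, mem_sdiff.2 ⟨hg, ?_⟩, hgy⟩))
        intro h
        exact hρ1 g h (hgy ▸ hy)
    have h1 := card_le_card hsub
    have h2 := card_union_le ((M \ ρ₀).image Prod.snd ∪ {f.2})
      ((outer (HH S H i)).image fun h => h.1)
    have h3 := card_union_le ((M \ ρ₀).image Prod.snd) {f.2}
    have h4 := card_image_le (s := M \ ρ₀) (f := Prod.snd)
    have h5 : ((outer (HH S H i)).image fun h => h.1).card ≤ w := by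
      refine le_trans ?_ (hW i)
      rw [card_image_of_injective _ Subtype.val_injective]
      change _ ≤ ((outer (HH S H i)).image fun h => (Sum.inr h.1 : Vx n)).card
      rw [card_image_of_injective]
      intro a b hab
      exact Subtype.ext (Sum.inr.inj hab)
    have h6 : ({f.2} : Finset (Fin n)).card = 1 := card_singleton _
    omega
  have hex : e.2 ≠ x := hxM e heM
  -- these holes are outside the support
  have oe : (⟨e.2, heH⟩ : {h // h ∈ H}) ∉ outer (HH S H i) := by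
    intro h
    obtain ⟨g, hg1, hg2, hg3⟩ := hWc (Sum.inr e.2) (mem_hole_W.2 ⟨_, h, rfl⟩)
    have : g = e := hM g hg1 e heM (Or.inr hg3)
    exact heR (this ▸ hg2)
  have of' : (⟨f.2, hfH⟩ : {h // h ∈ H}) ∉ outer (HH S H i) := by
    intro h
    obtain ⟨g, hg1, hg2, hg3⟩ := hWc (Sum.inr f.2) (mem_hole_W.2 ⟨_, h, rfl⟩)
    have : g = f := hR' g hg2 f hfR (Or.inr hg3)
    exact hfM (this ▸ hg1)
  have ox : (⟨x, hxH⟩ : {h // h ∈ H}) ∉ outer (HH S H i) := by
    intro h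
    exact hxW (mem_hole_W.2 ⟨_, h, rfl⟩)
  have n1 : (⟨e.2, heH⟩ : {h // h ∈ H}) ≠ ⟨f.2, hfH⟩ := fun h => hne (congrArg Subtype.val h)
  have n2 : (⟨e.2, heH⟩ : {h // h ∈ H}) ≠ ⟨x, hxH⟩ := fun h => hex (congrArg Subtype.val h)
  have n3 : (⟨f.2, hfH⟩ : {h // h ∈ H}) ≠ ⟨x, hxH⟩ := fun h =>
    hxf (congrArg Subtype.val h).symm
  obtain ⟨π, ha, hb⟩ := mem_HH.1 (cyc_mem_of_not_outer oe of' ox n1 n2 n3)
  obtain ⟨τ, hτ⟩ : ∃ τ, τ = Perm.ofSubtype
      (cyc (⟨e.2, heH⟩ : {h // h ∈ H}) ⟨f.2, hfH⟩ ⟨x, hxH⟩) := ⟨_, rfl⟩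
  have ht1 : τ e.2 = f.2 := by rw [hτ]; exact lift_a n1 n2
  have ht2 : ∀ y, y ≠ e.2 → y ≠ f.2 → y ≠ x → τ y = y := by
    intro y h1 h2 h3
    rw [hτ]; exact lift_of_ne h1 h2 h3
  have hadm := hole_adm hρ1 ha
  rw [← hτ] at hadm
  have hfix : ∀ g ∈ M, g ∈ R' → Prod.map ⇑(1 : Perm (Fin (n + 1))) ⇑τ g = g := by
    intro g hg hgR
    refine Prod.ext rfl ?_
    apply ht2
    · intro h
      have : g = e := hM g hg e heM (Or.inr h)
      exact heR (this ▸ hgR)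
    · intro h
      have : g = f := hR' g hgR f hfR (Or.inr h)
      exact hfM (this ▸ hg)
    · exact hxM g hg
  refine ⟨1, τ, π, hadm, hb, ?_, ?_, ?_⟩
  · have hsub : act 1 τ M \ R' ⊆ act 1 τ ((M \ R').erase e) := by
      intro g hg
      obtain ⟨h1, h2⟩ := mem_sdiff.1 hg
      obtain ⟨g', hg', rfl⟩ := exists_of_mem_act h1
      apply mem_act.2
      rw [mem_erase, mem_sdiff]
      refine ⟨?_, hg', ?_⟩
      · rintro rfl
        apply h2
        have : Prod.map ⇑(1 : Perm (Fin (n + 1))) ⇑τ g' = f := Prod.ext hfe'.symm ht1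
        rw [this]; exact hfR
      · intro h
        rw [hfix g' hg' h] at h2
        exact h2 h
    have h1 := card_le_card hsub
    have h2 : (act 1 τ ((M \ R').erase e)).card ≤ ((M \ R').erase e).card := card_image_le
    have h3 := card_erase_lt_of_mem (mem_sdiff.2 ⟨heM, heR⟩)
    omega
  · rintro g hg ⟨v, hv, hgv⟩
    obtain ⟨g', hg1, hg2, hg3⟩ := hWc v hv
    have : g = g' := hM.eq_of_inc hg hg1 hgv hg3
    exact hfix g hg (this ▸ hg2)
  · intro g hg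
    obtain ⟨g', hg', rfl⟩ := exists_of_mem_act hg
    exact hcov g' hg'

end Holes

/-! ### Pigeons -/

section Pigeons

variable {S : Fin m → Finset (Var n m × Bool)} {P : Finset (Fin (n + 1))}

/-- The permutations of `P` which extend to an automorphism fixing `i`. -/
def HP (S : Fin m → Finset (Var n m × Bool)) (P : Finset (Fin (n + 1))) (i : Fin m) :
    Subgroup (Perm {p // p ∈ P}) where
  carrier := {σ | ∃ π, Aut S (Perm.ofSubtype σ) 1 π ∧ π i = i}
  mul_mem' := by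
    rintro a b ⟨π, h1, h2⟩ ⟨π', h3, h4⟩
    refine ⟨π * π', by simpa using h1.mul h3, ?_⟩
    rw [Perm.mul_apply, h4, h2]
  one_mem' := ⟨1, by simpa using Aut.one, rfl⟩
  inv_mem' := by
    rintro a ⟨π, h1, h2⟩
    refine ⟨π⁻¹, by simpa using h1.inv, ?_⟩
    rw [Perm.inv_eq_iff_eq]; exact h2.symm

lemma mem_HP {i : Fin m} {σ : Perm {p // p ∈ P}} :
    σ ∈ HP S P i ↔ ∃ π, Aut S (Perm.ofSubtype σ) 1 π ∧ π i = i := Iff.rfl

lemma HP_conj {σ : Perm {p // p ∈ P}} {π : Perm (Fin m)}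
    (h : Aut S (Perm.ofSubtype σ) 1 π) (i : Fin m) :
    ∀ x ∈ HP S P i, σ * x * σ⁻¹ ∈ HP S P (π i) := by
  rintro x ⟨π', h1, h2⟩
  refine ⟨π * π' * π⁻¹, by simpa using (h.mul h1).mul h.inv, ?_⟩
  rw [Perm.mul_apply, Perm.mul_apply, inv_apply', h2]

lemma HP_conj' {σ : Perm {p // p ∈ P}} {π : Perm (Fin m)}
    (h : Aut S (Perm.ofSubtype σ) 1 π) (i : Fin m) :
    ∀ x ∈ HP S P (π i), σ⁻¹ * x * σ ∈ HP S P i := by
  intro x hx
  have h0 : Aut S (Perm.ofSubtype σ⁻¹) 1 π⁻¹ := by simpa using h.inv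
  have := HP_conj h0 (π i) x hx
  rwa [inv_apply', inv_inv] at this

lemma index_HP (hS : PigeonSymmetric S P) (i : Fin m) :
    Nat.card (Perm {p // p ∈ P} ⧸ HP S P i) ≤ m := by
  have hex : ∀ σ : Perm {p // p ∈ P}, ∃ π, Aut S (Perm.ofSubtype σ) 1 π := fun σ =>
    hS _ fun h hh => Perm.ofSubtype_apply_of_not_mem _ hh
  choose φ hφ using hex
  have hinj : Function.Injective fun q : Perm {p // p ∈ P} ⧸ HP S P i => φ q.out i := by
    intro q q' hq
    have h1 : (φ q.out)⁻¹ (φ q'.out i) = i := by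
      rw [Perm.inv_eq_iff_eq]; exact hq.symm
    have h2 : q.out⁻¹ * q'.out ∈ HP S P i :=
      ⟨(φ q.out)⁻¹ * φ q'.out, by simpa using (hφ q.out).inv.mul (hφ q'.out), h1⟩
    have h3 := QuotientGroup.eq.2 h2
    rwa [QuotientGroup.out_eq', QuotientGroup.out_eq'] at h3
  have := Nat.card_le_card_of_injective _ hinj
  rwa [Nat.card_eq_fintype_card (α := Fin m), Fintype.card_fin] at this

/-- The data for symmetry in the pigeons. -/
noncomputable def pigCtx (S : Fin m → Finset (Var n m × Bool)) (P : Finset (Fin (n + 1)))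
    (ρ₀ : Finset (Edge n)) : Ctx n m where
  S := S
  ρ₀ := ρ₀
  W := fun i => (outer (HP S P i)).image fun p => Sum.inl p.1
  wv := fun e => Sum.inl e.1

lemma pigCtx_ok (hA : Acyc S) (ρ₀ : Finset (Edge n)) : (pigCtx S P ρ₀).Ok where
  acyc := hA
  inc_wv := fun _ => rfl
  wv_map := fun _ _ _ => rfl

lemma mem_pig_W {ρ₀ : Finset (Edge n)} {i : Fin m} {v : Vx n} :
    v ∈ (pigCtx S P ρ₀).W i ↔ ∃ p ∈ outer (HP S P i), Sum.inl p.1 = v := by
  simp only [pigCtx, mem_image]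

lemma pig_adm {ρ₀ : Finset (Edge n)} (hρ : ∀ e ∈ ρ₀, e.1 ∉ P) {σ : Perm {p // p ∈ P}}
    {π : Perm (Fin m)} (h : Aut S (Perm.ofSubtype σ) 1 π) :
    (pigCtx S P ρ₀).Adm (Perm.ofSubtype σ) 1 π := by
  refine ⟨h, ?_, ?_⟩
  · have hfix : ∀ e ∈ ρ₀, Prod.map ⇑(Perm.ofSubtype σ) ⇑(1 : Perm (Fin n)) e = e := by
      intro e he
      exact Prod.ext (Perm.ofSubtype_apply_of_not_mem _ (hρ e he)) rfl
    change act (Perm.ofSubtype σ) 1 ρ₀ = ρ₀
    ext e
    constructor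
    · intro he
      obtain ⟨f, hf, rfl⟩ := exists_of_mem_act he
      rw [hfix f hf]; exact hf
    · intro he
      rw [← hfix e he]
      exact mem_act.2 he
  · intro j v
    have h1 := outer_conj (HP_conj h j) (HP_conj' h j)
    rw [mem_pig_W, mem_pig_W]
    cases v with
    | inr p => simp
    | inl q =>
      constructor
      · rintro ⟨x, hx, hxq⟩
        rw [h1] at hx
        obtain ⟨y, hy, rfl⟩ := mem_image.1 hx
        refine ⟨y, hy, ?_⟩
        rw [Sum.map_inl, Sum.inl.injEq, ← Perm.ofSubtype_apply_coe] at hxq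
        rw [(Perm.ofSubtype σ).injective hxq]
      · rintro ⟨y, hy, hyq⟩
        rw [Sum.inl.injEq] at hyq
        refine ⟨σ y, by rw [h1]; exact mem_image_of_mem _ hy, ?_⟩
        rw [Sum.map_inl, ← hyq, Perm.ofSubtype_apply_coe]

theorem pig_movable {ρ₀ : Finset (Edge n)} (hρ1 : ∀ e ∈ ρ₀, e.1 ∉ P)
    (hρ2 : ∀ p ∉ P, ∃ e ∈ ρ₀, e.1 = p) {w : ℕ}
    (hW : ∀ i, ((pigCtx S P ρ₀).W i).card ≤ w) (hw : 3 * w + 2 ≤ P.card) :
    (pigCtx S P ρ₀).Movable (fun e => Sum.inr e.2) w := by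
  intro i M R' hM hR' hρM hρR hc hWc hcov hnot
  have hρM' : ρ₀ ⊆ M := hρM
  have hρR' : ρ₀ ⊆ R' := hρR
  have hc' : (M \ ρ₀).card ≤ 2 * w := hc
  obtain ⟨e, heM, heR⟩ := not_subset.1 hnot
  obtain ⟨f, hfR, hfe⟩ := hcov e heM
  have hfe' : f.2 = e.2 := hfe
  have heρ : e ∉ ρ₀ := fun h => heR (hρR' h)
  have hfM : f ∉ M := by
    intro h
    have : e = f := hM e heM f h (Or.inr hfe'.symm)
    exact heR (this ▸ hfR)
  have hfρ : f ∉ ρ₀ := fun h => hfM (hρM' h)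
  have hne : e.1 ≠ f.1 := by
    intro h
    have : e = f := Prod.ext h hfe'.symm
    exact heR (this ▸ hfR)
  have heH : e.1 ∈ P := by
    by_contra h
    obtain ⟨g, hg, hge⟩ := hρ2 _ h
    have : g = e := hM g (hρM' hg) e heM (Or.inl hge)
    exact heρ (this ▸ hg)
  have hfH : f.1 ∈ P := by
    by_contra h
    obtain ⟨g, hg, hge⟩ := hρ2 _ h
    have : g = f := hR' g (hρR' hg) f hfR (Or.inl hge)
    exact hfρ (this ▸ hg)
  -- a spare pigeon
  obtain ⟨x, hxH, hxM, hxf, hxW⟩ : ∃ x ∈ P, (∀ g ∈ M, g.1 ≠ x) ∧ x ≠ f.1 ∧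
      Sum.inl x ∉ (pigCtx S P ρ₀).W i := by
    by_contra hcon
    push Not at hcon
    have hsub : P ⊆ ((M \ ρ₀).image Prod.fst ∪ {f.1}) ∪
        ((outer (HP S P i)).image fun h => h.1) := by
      intro y hy
      by_cases h1 : ∀ g ∈ M, g.1 ≠ y
      · by_cases h2 : y = f.1
        · exact mem_union_left _ (mem_union_right _ (by simp [h2]))
        · obtain ⟨z, hz, hzy⟩ := mem_pig_W.1 (hcon y hy h1 h2)
          exact mem_union_right _ (mem_image.2 ⟨z, hz, Sum.inl.inj hzy⟩)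
      · push Not at h1
        obtain ⟨g, hg, hgy⟩ := h1
        refine mem_union_left _ (mem_union_left _ (mem_image.2 ⟨g, mem_sdiff.2 ⟨hg, ?_⟩, hgy⟩))
        intro h
        exact hρ1 g h (hgy ▸ hy)
    have h1 := card_le_card hsub
    have h2 := card_union_le ((M \ ρ₀).image Prod.fst ∪ {f.1})
      ((outer (HP S P i)).image fun h => h.1)
    have h3 := card_union_le ((M \ ρ₀).image Prod.fst) {f.1}
    have h4 := card_image_le (s := M \ ρ₀) (f := Prod.fst)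
    have h5 : ((outer (HP S P i)).image fun h => h.1).card ≤ w := by
      refine le_trans ?_ (hW i)
      rw [card_image_of_injective _ Subtype.val_injective]
      change _ ≤ ((outer (HP S P i)).image fun h => (Sum.inl h.1 : Vx n)).card
      rw [card_image_of_injective]
      intro a b hab
      exact Subtype.ext (Sum.inl.inj hab)
    have h6 : ({f.1} : Finset (Fin (n + 1))).card = 1 := card_singleton _
    omega
  have hex : e.1 ≠ x := hxM e heM
  -- these pigeons are outside the support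
  have oe : (⟨e.1, heH⟩ : {p // p ∈ P}) ∉ outer (HP S P i) := by
    intro h
    obtain ⟨g, hg1, hg2, hg3⟩ := hWc (Sum.inl e.1) (mem_pig_W.2 ⟨_, h, rfl⟩)
    have : g = e := hM g hg1 e heM (Or.inl hg3)
    exact heR (this ▸ hg2)
  have of' : (⟨f.1, hfH⟩ : {p // p ∈ P}) ∉ outer (HP S P i) := by
    intro h
    obtain ⟨g, hg1, hg2, hg3⟩ := hWc (Sum.inl f.1) (mem_pig_W.2 ⟨_, h, rfl⟩)
    have : g = f := hR' g hg2 f hfR (Or.inl hg3)
    exact hfM (this ▸ hg1)
  have ox : (⟨x, hxH⟩ : {p // p ∈ P}) ∉ outer (HP S P i) := by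
    intro h
    exact hxW (mem_pig_W.2 ⟨_, h, rfl⟩)
  have n1 : (⟨e.1, heH⟩ : {p // p ∈ P}) ≠ ⟨f.1, hfH⟩ := fun h => hne (congrArg Subtype.val h)
  have n2 : (⟨e.1, heH⟩ : {p // p ∈ P}) ≠ ⟨x, hxH⟩ := fun h => hex (congrArg Subtype.val h)
  have n3 : (⟨f.1, hfH⟩ : {p // p ∈ P}) ≠ ⟨x, hxH⟩ := fun h =>
    hxf (congrArg Subtype.val h).symm
  obtain ⟨π, ha, hb⟩ := mem_HP.1 (cyc_mem_of_not_outer oe of' ox n1 n2 n3)
  obtain ⟨τ, hτ⟩ : ∃ τ, τ = Perm.ofSubtype
      (cyc (⟨e.1, heH⟩ : {p // p ∈ P}) ⟨f.1, hfH⟩ ⟨x, hxH⟩) := ⟨_, rfl⟩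
  have ht1 : τ e.1 = f.1 := by rw [hτ]; exact lift_a n1 n2
  have ht2 : ∀ y, y ≠ e.1 → y ≠ f.1 → y ≠ x → τ y = y := by
    intro y h1 h2 h3
    rw [hτ]; exact lift_of_ne h1 h2 h3
  have hadm := pig_adm hρ1 ha
  rw [← hτ] at hadm
  have hfix : ∀ g ∈ M, g ∈ R' → Prod.map ⇑τ ⇑(1 : Perm (Fin n)) g = g := by
    intro g hg hgR
    refine Prod.ext ?_ rfl
    apply ht2
    · intro h
      have : g = e := hM g hg e heM (Or.inl h)
      exact heR (this ▸ hgR)
    · intro h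
      have : g = f := hR' g hgR f hfR (Or.inl h)
      exact hfM (this ▸ hg)
    · exact hxM g hg
  refine ⟨τ, 1, π, hadm, hb, ?_, ?_, ?_⟩
  · have hsub : act τ 1 M \ R' ⊆ act τ 1 ((M \ R').erase e) := by
      intro g hg
      obtain ⟨h1, h2⟩ := mem_sdiff.1 hg
      obtain ⟨g', hg', rfl⟩ := exists_of_mem_act h1
      apply mem_act.2
      rw [mem_erase, mem_sdiff]
      refine ⟨?_, hg', ?_⟩
      · rintro rfl
        apply h2
        have : Prod.map ⇑τ ⇑(1 : Perm (Fin n)) g' = f := Prod.ext ht1 hfe'.symm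
        rw [this]; exact hfR
      · intro h
        rw [hfix g' hg' h] at h2
        exact h2 h
    have h1 := card_le_card hsub
    have h2 : (act τ 1 ((M \ R').erase e)).card ≤ ((M \ R').erase e).card := card_image_le
    have h3 := card_erase_lt_of_mem (mem_sdiff.2 ⟨heM, heR⟩)
    omega
  · rintro g hg ⟨v, hv, hgv⟩
    obtain ⟨g', hg1, hg2, hg3⟩ := hWc v hv
    have : g = g' := hM.eq_of_inc hg hg1 hgv hg3
    exact hfix g hg (this ▸ hg2)
  · intro g hg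
    obtain ⟨g', hg', rfl⟩ := exists_of_mem_act hg
    exact hcov g' hg'

end Pigeons

end Pool.Agent.Lib.MP_e81270_lc_Sym
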